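import Pool.Agent.Lib.H30P.Il

/-!
# H8C, file Room: the side of a cornered curve

A plane path `w 0, .., w p` and two crossing edges `c = (w 0) B`, `d = (w p) A`, crossing point `o`, which miss the
path. The curve is the path with the two pieces `[w p, o]`, `[o, w 0]`; the room is its side with the corner
`(w 0, o, w p)`; `A` and `B` are on the other side.

* `re w p`: the closed set path `+ (w p)(w 0)`; `asum T w x y 0 p`: crossings of `xy` with the path;
* `rs T w p A B y`: side of `y` (`= 1`: in the room) for `y` off the path;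
* `rf T w p A B i z`: start side of the ray `w i → z`, `0 < i < p` (`= 1`: it starts in the room).

Results (`h : Room T w p A B`): `rs_A`, `rs_B`; `rs_edge` (R1), `rf_ray` (R2), `rf_two` (R3), `rf_A`, `rf_B` (R5).
-/

set_option autoImplicit false
set_option linter.unusedSectionVars false
set_option linter.unusedVariables false

namespace H30P

open H53P Finset

variable {V : Type*} [DecidableEq V] {T : Table V} {w : ℕ → V} {p : ℕ} {A B : V}

/-- the room: path `w 0 .. w p`, corner `o = (w 0)B x (w p)A` -/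
structure Room (T : Table V) (w : ℕ → V) (p : ℕ) (A B : V) : Prop where
  two : 2 ≤ p
  inj : ∀ i ≤ p, ∀ j ≤ p, w i = w j → i = j
  offA : ∀ i ≤ p, w i ≠ A
  offB : ∀ i ≤ p, w i ≠ B
  plane : ∀ i < p, ∀ j < p, T.X (w i) (w (i + 1)) (w j) (w (j + 1)) = false
  crs : T.X (w 0) B (w p) A = true
  unc : ∀ i < p, T.X (w 0) B (w i) (w (i + 1)) = false
  und : ∀ i < p, T.X (w p) A (w i) (w (i + 1)) = false

/-- the path and its closing edge -/
def re (w : ℕ → V) (p : ℕ) : Finset (Sym2 V) :=
  ((range p).image fun k => s(w k, w (k + 1))) ∪ {s(w p, w 0)}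

/-- the side of a vertex: `1` in the room -/
def rs (T : Table V) (w : ℕ → V) (p : ℕ) (A B y : V) : ZMod 2 :=
  pc T (re w p) y B + z2 (inn T (w 0) B (w p) A y)

/-- the start side of the ray `w i → z` -/
def rf (T : Table V) (w : ℕ → V) (p : ℕ) (A B : V) (i : ℕ) (z : V) : ZMod 2 :=
  rs T w p A B (w i) + al T (w i) (w (i + 1)) (w (i - 1)) z B

/-- the closed sequence -/
def wc (w : ℕ → V) (p : ℕ) : ℕ → V := fun k => w (k % (p + 1))

theorem wc_of {k : ℕ} (h : k ≤ p) : wc w p k = w k := by
  unfold wc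
  rw [Nat.mod_eq_of_lt (by omega)]

theorem wc_top : wc w p (p + 1) = w 0 := by
  unfold wc
  rw [Nat.mod_self]

theorem wc_per (h2 : 2 ≤ p) (hi : ∀ i ≤ p, ∀ j ≤ p, w i = w j → i = j) : Per (wc w p) (p + 1) where
  three := by omega
  per k := by
    unfold wc
    rw [Nat.add_mod_right]
  inj i h3 j h4 h5 := by
    rw [wc_of (by omega), wc_of (by omega)] at h5
    exact hi i (by omega) j (by omega) h5

theorem re_eq : re w p = pe (wc w p) (p + 1) := by
  unfold re pe
  rw [range_add_one, image_insert, wc_of le_rfl, wc_top, insert_eq, union_comm]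
  congr 1
  apply image_congr
  intro k hk
  rw [mem_coe, mem_range] at hk
  show s(w k, w (k + 1)) = s(wc w p k, wc w p (k + 1))
  rw [wc_of (by omega), wc_of (by omega)]

namespace Room

variable (h : Room T w p A B)

include h

theorem rper : Per (wc w p) (p + 1) := wc_per h.two h.inj

theorem rclo : Clo (re w p) := by
  rw [re_eq]
  exact h.rper.clo

theorem rlpl : Lpl (re w p) := by
  rw [re_eq]
  exact h.rper.lpl

theorem roff {x : V} (hx : ∀ i ≤ p, w i ≠ x) : Off (re w p) x := by
  rw [re_eq]
  apply h.rper.off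
  intro k
  have h1 : k % (p + 1) < p + 1 := Nat.mod_lt _ (by omega)
  exact hx _ (by omega)

theorem rnb {i : ℕ} (h1 : 0 < i) (h2 : i < p) : Nb (re w p) (w i) (w (i + 1)) (w (i - 1)) := by
  have h3 := h.rper.nb i
  rw [re_eq]
  rw [wc_of (by omega), wc_of (by omega), show i + (p + 1) - 1 = (i - 1) + (p + 1) by omega, h.rper.per,
    wc_of (by omega)] at h3
  exact h3

/-- crossings with the closed set -/
theorem rpc (x y : V) : pc T (re w p) x y = asum T w x y 0 p + x4 T x y (w p) (w 0) := by
  rw [re_eq, pc_pe h.rper]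
  unfold asum
  rw [sum_Ico_succ_top (Nat.zero_le p), wc_of le_rfl, wc_top]
  congr 1
  apply sum_congr rfl
  intro t ht
  rw [mem_Ico] at ht
  rw [wc_of (by omega), wc_of (by omega)]

theorem ne_w {i j : ℕ} (hi : i ≤ p) (hj : j ≤ p) (hij : i ≠ j) : w i ≠ w j := fun e => hij (h.inj i hi j hj e)

/-- the closing edge: an edge which misses `c` and `d` -/
theorem rcl {x y : V} (xy : x ≠ y) (x0 : x ≠ w 0) (xp : x ≠ w p) (y0 : y ≠ w 0) (yp : y ≠ w p)
    (hc : T.X (w 0) B x y = false) (hd : T.X (w p) A x y = false) :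
    x4 T x y (w p) (w 0) = z2 (inn T (w 0) B (w p) A x) + z2 (inn T (w 0) B (w p) A y) := by
  have h1 := sm_edge h.crs xy x0 xp y0 yp hc hd
  rw [← h1, x4_4, x4_1]

end Room

/-- three vertices off a closed set -/
theorem pc_co {E : Finset (Sym2 V)} (hE : Clo E) {x y z : V} (hx : Off E x) (hy : Off E y) (hz : Off E z) :
    pc T E x z + pc T E y z = pc T E x y := by
  by_cases xy : x = y
  · subst xy
    rw [two_z, pc_self]
  by_cases yz : y = z
  · subst yz
    rw [pc_self, add_zero]
  by_cases xz : x = z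
  · subst xz
    rw [pc_self, zero_add, pc_symm]
  have h1 := pc_out hE xy yz (Ne.symm xz) hx hy hz (T := T)
  rw [pc_symm T E z x] at h1
  have h2 := two_z (pc T E x y)
  linear_combination h1 - h2

/-- one vertex on a closed set, with coincidences -/
theorem pc_one' {E : Finset (Sym2 V)} (hE : Clo E) {u a b y z : V} (hu : Nb E u a b)
    (uy : u ≠ y) (uz : u ≠ z) (hy : Off E y) (hz : Off E z) (hl : Lpl E) :
    pc T E u y + pc T E u z + pc T E y z = al T u a b y z := by
  by_cases yz : y = z
  · subst yz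
    rw [al_self, pc_self, two_z, add_zero]
  have h1 := pc_one hE hu uy uz yz hy hz hl (T := T)
  rw [← h1, pc_symm T E z u]
  ring

namespace Room

variable (h : Room T w p A B)

include h

/-- (R5) `B` is outside -/
theorem rs_B : rs T w p A B B = 0 := by
  unfold rs
  rw [pc_self, inn_u, z2_false, add_zero]

/-- an edge between `A` and `B` crosses the path evenly -/
theorem asum_AB : asum T w B A 0 p = 0 := by
  obtain ⟨x0, _, wp0, w0A, BP, BA⟩ := T.ne _ _ _ _ h.crs
  have hX : T.X B (w 0) A (w p) = true := by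
    rw [T.xs7]
    first
      | exact h.crs
      | (rw [T.xs4]; exact h.crs)
  have e1 : ∀ t, t < p → x4 T B A (w t) (w (t + 1)) =
      z2 (inn T B (w 0) A (w p) (w t)) + z2 (inn T B (w 0) A (w p) (w (t + 1))) := by
    intro t ht
    apply sm_edge hX (h.ne_w (by omega) (by omega) (by omega)) (h.offB _ (by omega)) (h.offA _ (by omega))
      (h.offB _ (by omega)) (h.offA _ (by omega))
    · rw [T.xs1]; exact h.unc t ht
    · rw [T.xs1]; exact h.und t ht
  have e2 : ∀ k, k ≤ p → asum T w B A 0 k =
      z2 (inn T B (w 0) A (w p) (w 0)) + z2 (inn T B (w 0) A (w p) (w k)) := by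
    intro k
    induction k with
    | zero =>
      intro _
      unfold asum
      rw [Ico_self, sum_empty, two_z]
    | succ k ih =>
      intro hk
      have e3 := ih (by omega)
      unfold asum at e3 ⊢
      rw [sum_Ico_succ_top (Nat.zero_le k), e3, e1 k (by omega)]
      have e4 := two_z (z2 (inn T B (w 0) A (w p) (w k)))
      linear_combination e4
  rw [e2 p le_rfl, inn_u, inn_v]
  rfl

/-- (R5) `A` is outside -/
theorem rs_A : rs T w p A B A = 0 := by
  have e1 : x4 T A B (w p) (w 0) = 0 := by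
    have e2 := T.one _ _ _ _ h.crs
    rw [x4_4, x4_1, x4_2]
    unfold x4
    rw [e2]
    rfl
  have e3 := h.asum_AB
  have e4 : asum T w A B 0 p = asum T w B A 0 p := by
    unfold asum
    apply sum_congr rfl
    intro t _
    rw [x4_1]
  unfold rs
  rw [inn_v, z2_false, add_zero, h.rpc, e1, add_zero, e4, e3]

/-- (R1) an edge off the path which misses `c` and `d` -/
theorem rs_edge {x y : V} (hx : ∀ i ≤ p, w i ≠ x) (hy : ∀ i ≤ p, w i ≠ y) (xy : x ≠ y)
    (hc : T.X (w 0) B x y = false) (hd : T.X (w p) A x y = false) :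
    rs T w p A B x + rs T w p A B y = asum T w x y 0 p := by
  have e1 := pc_co h.rclo (h.roff hx) (h.roff hy) (h.roff h.offB) (T := T)
  have e2 := h.rcl xy (hx 0 (by omega)).symm (hx p le_rfl).symm (hy 0 (by omega)).symm (hy p le_rfl).symm hc hd
  have e3 := h.rpc x y
  unfold rs
  have e4 := two_z (z2 (inn T (w 0) B (w p) A x) + z2 (inn T (w 0) B (w p) A y))
  linear_combination e1 + e2 + e3 + e4

/-- (R1) the two ends are on the same side if the path is missed, too -/
theorem rs_eq {x y : V} (hx : ∀ i ≤ p, w i ≠ x) (hy : ∀ i ≤ p, w i ≠ y)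
    (hc : T.X (w 0) B x y = false) (hd : T.X (w p) A x y = false)
    (hP : ∀ i < p, T.X x y (w i) (w (i + 1)) = false) : rs T w p A B x = rs T w p A B y := by
  by_cases xy : x = y
  · rw [xy]
  have e1 := h.rs_edge hx hy xy hc hd
  rw [asum_unc (fun k _ hk => hP k hk)] at e1
  have e2 := two_z (rs T w p A B y)
  linear_combination e1 - e2

/-- (R2) a ray to a vertex off the path; it misses `c` and `d` -/
theorem rf_ray {i : ℕ} {z : V} (h1 : 0 < i) (h2 : i < p) (hz : ∀ j ≤ p, w j ≠ z)
    (hc : T.X (w 0) B (w i) z = false) (hd : T.X (w p) A (w i) z = false) :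
    rf T w p A B i z = rs T w p A B z + asum T w (w i) z 0 p := by
  have e1 := pc_one' h.rclo (h.rnb h1 h2) (hz i (by omega)) (h.offB i (by omega)) (h.roff hz) (h.roff h.offB)
    h.rlpl (T := T)
  have e2 := h.rcl (hz i (by omega)) (h.ne_w (by omega) (by omega) (by omega))
    (h.ne_w (by omega) (by omega) (by omega)) (hz 0 (by omega)).symm (hz p le_rfl).symm hc hd
  have e3 := h.rpc (w i) z
  unfold rf rs
  rw [← e1]
  have e4 := two_z (pc T (re w p) (w i) B + pc T (re w p) z B)
  have e5 := two_z (z2 (inn T (w 0) B (w p) A (w i)))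
  have e6 := two_z (pc T (re w p) (w i) B)
  have e7 := two_z (z2 (inn T (w 0) B (w p) A z))
  linear_combination e3 + e2 + e6 + e7 - e5 + e5 + e5 - e7

/-- (R3) the two ends of an edge between two inner vertices of the path; it misses `c` and `d` -/
theorem rf_two {i j : ℕ} (h1 : 0 < i) (h2 : i + 2 ≤ j) (h3 : j < p)
    (hc : T.X (w 0) B (w i) (w j) = false) (hd : T.X (w p) A (w i) (w j) = false) :
    rf T w p A B i (w j) + rf T w p A B j (w i) = asum T w (w i) (w j) 0 p := by
  have nb1 := h.rnb h1 (by omega : i < p)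
  have nb2 := h.rnb (by omega : 0 < j) h3
  have hij : s(w i, w j) ∉ re w p := by
    intro h4
    rcases nb1.only _ h4 with h5 | h5
    · exact h.ne_w (by omega) (by omega) (by omega : j ≠ i + 1) h5
    · exact h.ne_w (by omega) (by omega) (by omega : j ≠ i - 1) h5
  have e1 := pc_two h.rclo nb1 nb2 (h.ne_w (by omega) (by omega) (by omega)) hij (h.roff h.offB) h.rlpl (T := T)
  have e2 := h.rcl (h.ne_w (by omega) (by omega) (by omega : i ≠ j)) (h.ne_w (by omega) (by omega) (by omega))
    (h.ne_w (by omega) (by omega) (by omega)) (h.ne_w (by omega) (by omega) (by omega))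
    (h.ne_w (by omega) (by omega) (by omega)) hc hd
  have e3 := h.rpc (w i) (w j)
  unfold rf rs
  rw [pc_symm T (re w p) B (w j)] at e1
  have e4 := two_z (pc T (re w p) (w i) B + pc T (re w p) (w j) B)
  have e5 := two_z (z2 (inn T (w 0) B (w p) A (w i)) + z2 (inn T (w 0) B (w p) A (w j)))
  linear_combination -e1 + e2 + e3 + e4 + e5

/-- (R5) the ray to `A`, no hypothesis on crossings -/
theorem rf_A {i : ℕ} (h1 : 0 < i) (h2 : i < p) :
    rf T w p A B i A = asum T w (w i) A 0 p +
      (x4 T (w i) A (w p) (w 0) + z2 (inn T (w 0) B (w p) A (w i))) := by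
  have e1 := pc_one' h.rclo (h.rnb h1 h2) (h.offA i (by omega)) (h.offB i (by omega)) (h.roff h.offA)
    (h.roff h.offB) h.rlpl (T := T)
  have e3 := h.rpc (w i) A
  have e4 := h.rs_A
  unfold rs at e4
  rw [inn_v, z2_false, add_zero] at e4
  rw [e4, add_zero] at e1
  unfold rf rs
  rw [← e1]
  have e6 := two_z (pc T (re w p) (w i) B)
  linear_combination e3 + e6

/-- (R5) the ray to `B`, no hypothesis on crossings -/
theorem rf_B {i : ℕ} (h1 : 0 < i) (h2 : i < p) :
    rf T w p A B i B = asum T w (w i) B 0 p +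
      (x4 T (w i) B (w p) (w 0) + z2 (inn T (w 0) B (w p) A (w i))) := by
  have e3 := h.rpc (w i) B
  unfold rf rs
  rw [al_self, add_zero, e3, add_assoc]

/-- (R5) the ray to `A` which misses `c` and the path starts outside -/
theorem rf_A0 {i : ℕ} (h1 : 0 < i) (h2 : i < p) (hc : T.X (w 0) B (w i) A = false)
    (hP : ∀ t < p, T.X (w i) A (w t) (w (t + 1)) = false) : rf T w p A B i A = 0 := by
  rw [h.rf_ray h1 h2 h.offA hc, h.rs_A, asum_unc (fun k _ hk => hP k hk), add_zero]
  cases e : T.X (w p) A (w i) A with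
  | false => rfl
  | true => exact absurd rfl (T.ne _ _ _ _ e).2.2.2.2.2

/-- (R5) the ray to `B` which misses `d` and the path starts outside -/
theorem rf_B0 {i : ℕ} (h1 : 0 < i) (h2 : i < p) (hd : T.X (w p) A (w i) B = false)
    (hP : ∀ t < p, T.X (w i) B (w t) (w (t + 1)) = false) : rf T w p A B i B = 0 := by
  rw [h.rf_ray h1 h2 h.offB ?_ hd, h.rs_B, asum_unc (fun k _ hk => hP k hk), add_zero]
  cases e : T.X (w 0) B (w i) B with
  | false => rfl
  | true => exact absurd rfl (T.ne _ _ _ _ e).2.2.2.2.2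

/-- two rays at `w i`: the difference of the start sides -/
theorem rf_add {i : ℕ} {y z : V} (h1 : 0 < i) (h2 : i < p) (yi : y ≠ w i) (y1 : y ≠ w (i + 1))
    (y2 : y ≠ w (i - 1)) (zi : z ≠ w i) (z1 : z ≠ w (i + 1)) (z2' : z ≠ w (i - 1)) :
    rf T w p A B i y + rf T w p A B i z = al T (w i) (w (i + 1)) (w (i - 1)) y z := by
  have e1 := al_add (T := T) (u := w i) (a := w (i + 1)) (b := w (i - 1)) (y := y) (z := z) (w := B)
    (h.ne_w (by omega) (by omega) (by omega)) (h.ne_w (by omega) (by omega) (by omega))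
    (h.ne_w (by omega) (by omega) (by omega)) yi y1 y2 zi z1 z2' (h.offB _ (by omega)).symm
    (h.offB _ (by omega)).symm (h.offB _ (by omega)).symm
  unfold rf
  have e2 := two_z (rs T w p A B (w i))
  linear_combination e1 + e2

end Room

end H30P
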