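import Pool.Agent.Lib.H8C.Ch
import Pool.Agent.Lib.H36L.Rules
import Pool.Agent.Lib.H40X.Defs
import Pool.Agent.Lib.H15FA.FA

/-!
# H8C, file FA: (G1) the lemma FA for a room

`h : Room T w p A B`, `Z` a plane set of chords of the path which miss the path, none of them in the room: some chord in
`Z` encloses `A, B` (`H40X.Enc`), or some position `0 < c < p` is not straddled by `Z`. (Combinatorics: `H15FA.fa`;
the rule for two interleaving chords: `H36L.rule_R`; chords at `w 0`, `w p`: `Room.lflag_nn` and its mirror image.)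
-/

set_option autoImplicit false
set_option linter.unusedSectionVars false
set_option linter.unusedVariables false

namespace H30P

open H53P H10S H36L Finset

variable {V : Type*} [DecidableEq V] {T : Table V} {w : ℕ → V} {p : ℕ} {A B : V}

private theorem z_or {a : ZMod 2} (h : a ≠ 1) : a = 0 := by
  revert h
  revert a
  decide

/-- the mirror image of `Room.lflag_nn` -/
theorem Room.rflag_nn (h : Room T w p A B) {s : ℕ} (h1 : 0 < s) (h2 : s + 2 ≤ p)
    (hP : ∀ i < p, T.X (w s) (w p) (w i) (w (i + 1)) = false) (hf : rf T w p A B s (w p) = 1)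
    (hs : sdR T w p A B (w s) = 1) : T.X (w 0) B (w s) (w p) = false := by
  have hr := rev_room h
  have z0 : rv' w p 0 = w p := by unfold rv'; rw [Nat.sub_zero]
  have zp : rv' w p p = w 0 := by unfold rv'; rw [Nat.sub_self]
  have zs : rv' w p (p - s) = w s := rv_at (by omega)
  have e1 : rf T (rv' w p) p B A (p - s) (w p) = rf T w p A B s (w p) := by
    have e := sd_rev h (i := s) (z := w p) (by omega) (h.ne_w (by omega) (by omega) (by omega))
      (fun _ _ => h.ne_w (by omega) (by omega) (by omega)) (fun _ _ => h.ne_w (by omega) (by omega) (by omega))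
    rw [sd_in (by omega) (by omega), sd_in h1 (by omega)] at e
    exact e
  have e2 : sdL T (rv' w p) p B A (w s) = sdR T w p A B (w s) := by
    unfold sdL sdR
    rw [z0, asum_rev]
    rfl
  have hM := mis_rev (w := w) (p := p) (T := T) (u := w p) (v := w s) (fun i hi => by rw [T.xs1]; exact hP i hi)
  have e3 := hr.lflag_nn (t := p - s) (by omega) (by omega)
    (fun i hi => by rw [z0, zs]; exact hM i hi) (by rw [z0, e1]; exact hf) (by rw [zs, e2]; exact hs)
  rw [zp, z0, zs, T.xs2] at e3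
  exact e3

/-- (G1) -/
theorem room_fa (h : Room T w p A B) (Z : Finset (Sym2 V))
    (hZ : ∀ e ∈ Z, ∃ s t, s + 2 ≤ t ∧ t ≤ p ∧ Mis T w p (w s) (w t) ∧ e = s(w s, w t))
    (hpl : ∀ s t x y, s(w s, w t) ∈ Z → s(w x, w y) ∈ Z → T.X (w s) (w t) (w x) (w y) = false)
    (hN : ∀ s t, s(w s, w t) ∈ Z → ¬ NCh T w p A B s t) :
    (∃ s t, s(w s, w t) ∈ Z ∧ H40X.Enc T w p A B s t) ∨
      ∃ c, 0 < c ∧ c < p ∧ ∀ s t, s < c → c < t → t ≤ p → s(w s, w t) ∉ Z := by
  by_contra hc
  rw [not_or, not_exists] at hc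
  obtain ⟨hE, hS⟩ := hc
  have hE' : ∀ s t, s(w s, w t) ∈ Z → ¬ H40X.Enc T w p A B s t := fun s t h1 h2 => hE s ⟨t, h1, h2⟩
  have hp := h.two
  -- chords of `Z` in terms of positions
  have hm : ∀ s t, s + 2 ≤ t → t ≤ p → s(w s, w t) ∈ Z → Mis T w p (w s) (w t) := by
    intro s t h1 h2 h3
    obtain ⟨s', t', h4, h5, h6, h7⟩ := hZ _ h3
    rw [Sym2.eq_iff] at h7
    rcases h7 with ⟨e1, e2⟩ | ⟨e1, e2⟩
    · rw [e1, e2]; exact h6
    · rw [e1, e2]; exact mis_symm h6
  have deg0 : ∀ t, T.X (w 0) B (w 0) (w t) = false := by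
    intro t
    cases e : T.X (w 0) B (w 0) (w t) with
    | false => rfl
    | true => exact absurd rfl (T.ne _ _ _ _ e).2.2.1
  have degp : ∀ s, T.X (w p) A (w s) (w p) = false := by
    intro s
    cases e : T.X (w p) A (w s) (w p) with
    | false => rfl
    | true => exact absurd rfl (T.ne _ _ _ _ e).2.2.2.1
  refine H15FA.fa (p := p) (Z := fun s t => s + 2 ≤ t ∧ t ≤ p ∧ s(w s, w t) ∈ Z)
    (N := fun s t => rf T w p A B s (w t) = 1) hp (fun s t h => ⟨h.1, h.2.1⟩) ?_ ?_ ?_ ?_ ?_ ?_
  · rintro ⟨h1, h2, h3⟩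
    have hM := hm 0 p h1 h2 h3
    cases hi : inn T (w 0) B (w p) A (w 1) with
    | false =>
      exact hN 0 p h3 ⟨h1, h2, hM, deg0 p, degp 0, fun e => absurd e (lt_irrefl _), fun e => absurd e (lt_irrefl _),
        fun _ _ => hi⟩
    | true => exact hE' 0 p h3 ⟨h1, h2, hM, Or.inl ⟨rfl, rfl, hi⟩⟩
  · rintro t htp ⟨h1, h2, h3⟩ h4
    have hM := hm 0 t h1 h2 h3
    cases hd : T.X (w p) A (w 0) (w t) with
    | false =>
      exact hN 0 t h3 ⟨h1, h2, hM, deg0 t, hd, fun e => absurd e (lt_irrefl _), fun _ => h4,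
        fun _ e => absurd e (by omega)⟩
    | true =>
      refine hE' 0 t h3 ⟨h1, h2, hM, Or.inr (Or.inr (Or.inl ⟨rfl, htp, ?_, ?_⟩))⟩
      · apply z_or
        intro h5
        have h6 := h.lflag_nn (t := t) (by omega) htp hM h4
          (by unfold H40X.sd at h5; rw [if_pos rfl] at h5; exact h5)
        rw [hd] at h6
        exact absurd h6 (by simp)
      · unfold H40X.sd
        rw [if_neg (by omega), if_neg (by omega)]
        exact h4
  · rintro s hs ⟨h1, h2, h3⟩ h4
    have hM := hm s p h1 h2 h3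
    cases hd : T.X (w 0) B (w s) (w p) with
    | false =>
      exact hN s p h3 ⟨h1, h2, hM, hd, degp s, fun _ => h4, fun e => absurd e (lt_irrefl _),
        fun e => absurd e (by omega)⟩
    | true =>
      refine hE' s p h3 ⟨h1, h2, hM, Or.inr (Or.inl ⟨hs, rfl, ?_, ?_⟩)⟩
      · unfold H40X.sd
        rw [if_neg (by omega), if_neg (by omega)]
        exact h4
      · apply z_or
        intro h5
        have h6 := h.rflag_nn hs (by omega) hM h4
          (by unfold H40X.sd at h5; rw [if_neg (by omega), if_pos rfl] at h5; exact h5)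
        rw [hd] at h6
        exact absurd h6 (by simp)
  · rintro s t hs ht ⟨h1, h2, h3⟩ ⟨h4, h5⟩
    have hM := hm s t h1 h2 h3
    by_cases hx : T.X (w 0) B (w s) (w t) = true ∨ T.X (w p) A (w s) (w t) = true
    · refine hE' s t h3 ⟨h1, h2, hM, Or.inr (Or.inr (Or.inr ⟨hs, ht, ?_, ?_, hx⟩))⟩
      · unfold H40X.sd
        rw [if_neg (by omega), if_neg (by omega)]
        exact h4
      · unfold H40X.sd
        rw [if_neg (by omega), if_neg (by omega)]
        exact h5
    · rw [not_or, Bool.not_eq_true, Bool.not_eq_true] at hx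
      exact hN s t h3 ⟨h1, h2, hM, hx.1, hx.2, fun _ => h4, fun _ => h5, fun e => absurd e (by omega)⟩
  · rintro s x t y hsx hxt hty ⟨h1, h2, h3⟩ ⟨h4, h5, h6⟩
    have e := rule_R h hsx hxt hty h5 (hm s t h1 h2 h3) (hm x y h4 h5 h6) (hpl s t x y h3 h6)
    rw [sd_in (by omega) (by omega), sd_in (by omega) (by omega)] at e
    by_cases h7 : rf T w p A B t (w s) = 1
    · exact Or.inl h7
    · rw [z_or h7, zero_add] at e
      exact Or.inr e
  · intro c h1 h2
    by_contra h3
    apply hS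
    refine ⟨c, h1, h2, fun s t h4 h5 h6 h7 => h3 ⟨s, t, ⟨by omega, h6, h7⟩, h4, h5⟩⟩

end H30P
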