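import Pool.Agent.Lib.H8C.Room
import Pool.Agent.Lib.H8C.ChF

/-!
# H8C, file Ch: chords of the path of a room which end at a corner

`h : Room T w p A B`: path `w 0 .. w p`, `b = (w 0) B` and `a = (w p) A` cross at `o`. The start side of a ray at an
inner vertex is `rf`; here `sdL` (at `w 0`, between `w 1` and `b`) and `sdR` (at `w p`, between `w (p - 1)` and `a`).
All sides: `1` = in the room.

For an edge `(w 0)(w t)`, `0 < t < p`, which misses the path:
* `Room.lflag_rf`, `Room.lflag_sd`: local formulas for the two start sides;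
* `Room.lflag_eq`: it misses `a` => both ends have the same side;
* `Room.lflag_nn`: both ends have side `1` => it misses `a`.
The mirror images `Room.rflag_eq`, `Room.rflag_nn` for `(w s)(w p)`.
* `Room.lr_flag`: the two sides of `(w 0)(w p)` are equal (if it misses the path); `Room.lr_inn`: side `1` iff `w 1` is
  not in the small triangle at `w 0, w p`.
-/

set_option autoImplicit false
set_option linter.unusedSectionVars false
set_option linter.unusedVariables false

namespace H30P

open H53P Finset

variable {V : Type*} [DecidableEq V] {T : Table V} {w : ℕ → V} {p : ℕ} {A B : V}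

/-- the start side of the ray `w 0 → z` -/
def sdL (T : Table V) (w : ℕ → V) (p : ℕ) (A B z : V) : ZMod 2 :=
  asum T w (w 0) A 0 p + al T (w 0) (w 1) B z A

/-- the start side of the ray `w p → z` -/
def sdR (T : Table V) (w : ℕ → V) (p : ℕ) (A B z : V) : ZMod 2 :=
  asum T w (w p) B 0 p + al T (w p) (w (p - 1)) A z B

private theorem c_al_x4 (T : Table V) (u a b x y : V) : al T u a b x y =
    x4 T u a x y + x4 T u b x y + x4 T a b u x + x4 T a b u y + x4 T a b x y := by
  unfold al Table.alt altX
  rw [z2_xor, z2_xor, z2_xor, z2_xor]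
  rfl

private theorem c_comm (T : Table V) (u a b x y : V) : al T u a b x y = al T u x y a b := by
  rw [c_al_x4, c_al_x4, x4_4 T u x a b, x4_4 T u y a b, x4_4 T x y u a, x4_4 T x y u b, x4_4 T x y a b]
  ring

private theorem c_sw (T : Table V) (u a b x y : V) : al T u a b x y = al T u b a x y := by
  rw [c_al_x4, c_al_x4, x4_1 T b a u x, x4_1 T b a u y, x4_1 T b a x y]
  ring

private theorem c_sw2 (T : Table V) (u a b x y : V) : al T u a b x y = al T u a b y x := by
  rw [c_comm, c_sw, c_comm]

/-- the corner of a small triangle -/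
theorem inn_cor {x u y v a : V} (hX : T.X x u y v = true) (ax : a ≠ x) (au : a ≠ u) (ay : a ≠ y) (av : a ≠ v)
    (h : T.X x a y v = false) : inn T x u y v a = T.alt x u y a v := by
  obtain ⟨xu, yv, xy, xv, uy, uv⟩ := T.ne _ _ _ _ hX
  exact xfalse fun e => ch_cor (T := T) (o := x) (B := u) (p := y) (A := v) (y := a)
    (by simp [xu, xy, xv, ax.symm, uy, uv, au.symm, yv, ay.symm, av.symm]) hX h e

/-- the other corner -/
theorem inn_cor' {x u y v a : V} (hX : T.X x u y v = true) (ax : a ≠ x) (au : a ≠ u) (ay : a ≠ y) (av : a ≠ v)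
    (h : T.X y a x u = false) : inn T x u y v a = T.alt y v x a u := by
  have hX' : T.X y v x u = true := by rw [T.xs4]; exact hX
  rw [← inn_swap T x u y v a]
  exact inn_cor hX' ay av ax au h

namespace Room

variable (h : Room T w p A B)

include h

theorem rnb0 : Nb (re w p) (w 0) (w 1) (w p) := by
  have h3 := h.rper.nb 0
  have h2 := h.two
  rw [re_eq]
  rw [wc_of (by omega), wc_of (by omega), show 0 + (p + 1) - 1 = p by omega, wc_of le_rfl] at h3
  exact h3

theorem pc0B : pc T (re w p) (w 0) B = 0 := by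
  rw [h.rpc, asum_unc (fun k _ hk => h.unc k hk), zero_add]
  unfold x4
  cases e : T.X (w 0) B (w p) (w 0) with
  | false => rfl
  | true => exact absurd rfl (T.ne _ _ _ _ e).2.2.2.1

theorem pcAB : pc T (re w p) A B = 0 := by
  have e := h.rs_A
  unfold rs at e
  rw [inn_v, z2_false, add_zero] at e
  exact e

/-- the crossings of `(w 0) A` with the path -/
theorem asum0A : asum T w (w 0) A 0 p = al T (w 0) (w 1) (w p) A B := by
  have e1 := pc_one' h.rclo h.rnb0 (h.offA 0 (by omega)) (h.offB 0 (by omega)) (h.roff h.offA)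
    (h.roff h.offB) h.rlpl (T := T)
  rw [h.pc0B, h.pcAB, add_zero, add_zero, h.rpc] at e1
  rw [← e1]
  have e2 : x4 T (w 0) A (w p) (w 0) = 0 := by
    unfold x4
    cases e : T.X (w 0) A (w p) (w 0) with
    | false => rfl
    | true => exact absurd rfl (T.ne _ _ _ _ e).2.2.2.1
  rw [e2, add_zero]

theorem lflag_sd (z : V) : sdL T w p A B z = al T (w 0) (w 1) (w p) A B + al T (w 0) (w 1) B z A := by
  unfold sdL
  rw [h.asum0A]

theorem lflag_rf {t : ℕ} (h1 : 2 ≤ t) (h2 : t < p)
    (hP : ∀ i < p, T.X (w 0) (w t) (w i) (w (i + 1)) = false) :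
    rf T w p A B t (w 0) = al T (w 0) (w 1) (w p) (w t) B + z2 (inn T (w 0) B (w p) A (w t)) := by
  have nb1 := h.rnb0
  have nb2 := h.rnb (by omega : 0 < t) h2
  have hij : s(w 0, w t) ∉ re w p := by
    intro h4
    rcases nb1.only _ h4 with h5 | h5
    · exact h.ne_w (by omega) (by omega) (by omega : t ≠ 1) h5
    · exact h.ne_w (by omega) (by omega) (by omega : t ≠ p) h5
  have e1 := pc_two h.rclo nb1 nb2 (h.ne_w (by omega) (by omega) (by omega)) hij (h.roff h.offB) h.rlpl (T := T)
  have e2 : pc T (re w p) (w 0) (w t) = 0 := by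
    rw [h.rpc, asum_unc (fun k _ hk => hP k hk), zero_add]
    unfold x4
    cases e : T.X (w 0) (w t) (w p) (w 0) with
    | false => rfl
    | true => exact absurd rfl (T.ne _ _ _ _ e).2.2.2.1
  rw [h.pc0B, e2, zero_add, add_zero] at e1
  unfold rf rs
  rw [pc_symm T (re w p) (w t) B, e1]
  have e3 := two_z (al T (w t) (w (t + 1)) (w (t - 1)) (w 0) B)
  linear_combination e3

/-- the rotation at `w 0` -/
theorem lrot {t : ℕ} (h1 : 2 ≤ t) (h2 : t < p) :
    al T (w 0) (w 1) (w p) (w t) B + al T (w 0) B (w p) (w t) A =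
      al T (w 0) (w 1) (w p) A B + al T (w 0) (w 1) B (w t) A := by
  have n0 : ∀ i, 0 < i → i ≤ p → w 0 ≠ w i := fun i hi hp => h.ne_w (by omega) hp (by omega)
  have oA := h.offA
  have oB := h.offB
  obtain ⟨x0, wpA, wp0, w0A, BP, BA⟩ := T.ne _ _ _ _ h.crs
  have e1 := al_add (T := T) (u := w 0) (a := w 1) (b := w p) (y := w t) (z := A) (w := B)
    (n0 1 (by omega) (by omega)) (n0 p (by omega) le_rfl) (h.ne_w (by omega) (by omega) (by omega))
    (n0 t (by omega) (by omega)).symm (h.ne_w (by omega) (by omega) (by omega))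
    (h.ne_w (by omega) (by omega) (by omega)) (oA 0 (by omega)).symm (oA 1 (by omega)).symm (oA p le_rfl).symm
    (oB 0 (by omega)).symm (oB 1 (by omega)).symm (oB p le_rfl).symm
  have e2 := al_add (T := T) (u := w 0) (a := w t) (b := A) (y := w 1) (z := w p) (w := B)
    (n0 t (by omega) (by omega)) (oA 0 (by omega)) (oA t (by omega)) (n0 1 (by omega) (by omega)).symm
    (h.ne_w (by omega) (by omega) (by omega)) (oA 1 (by omega)) (n0 p (by omega) le_rfl).symm
    (h.ne_w (by omega) (by omega) (by omega)) (oA p le_rfl) (oB 0 (by omega)).symm (oB t (by omega)).symm BA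
  rw [c_comm T (w 0) (w t) A (w 1) B, c_comm T (w 0) (w t) A (w p) B, c_sw T (w 0) (w p) B,
    c_comm T (w 0) (w t) A (w 1) (w p)] at e2
  have h2 : (2 : ZMod 2) = 0 := by decide
  linear_combination e1 + e2 + (al T (w 0) (w 1) (w p) (w t) A - al T (w 0) (w 1) (w p) A B -
    al T (w 0) (w 1) B (w t) A) * h2

/-- an edge at `w 0` which misses the path and `a`: both ends have the same side -/
theorem lflag_eq {t : ℕ} (h1 : 2 ≤ t) (h2 : t < p)
    (hP : ∀ i < p, T.X (w 0) (w t) (w i) (w (i + 1)) = false) (hd : T.X (w p) A (w 0) (w t) = false) :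
    rf T w p A B t (w 0) = sdL T w p A B (w t) := by
  have e1 : inn T (w 0) B (w p) A (w t) = T.alt (w 0) B (w p) (w t) A := by
    apply inn_cor h.crs (h.ne_w (by omega) (by omega) (by omega)) (h.offB t (by omega))
      (h.ne_w (by omega) (by omega) (by omega)) (h.offA t (by omega))
    rw [T.xs4]; exact hd
  rw [h.lflag_rf h1 h2 hP, h.lflag_sd, e1]
  exact h.lrot h1 h2

/-- an edge which misses the path, `a` and `b` does not change `inn_o` -/
theorem inn_step {u : V} (hX : T.X (w 0) u (w p) A = true) {i : ℕ} (h1 : 0 < i) (h2 : i + 1 < p)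
    (hu : ∀ i < p, T.X (w 0) u (w i) (w (i + 1)) = false) :
    z2 (inn T (w 0) B (w p) A (w i)) + z2 (inn T (w 0) u (w p) A (w i)) =
      z2 (inn T (w 0) B (w p) A (w (i + 1))) + z2 (inn T (w 0) u (w p) A (w (i + 1))) := by
  have e1 := sm_edge h.crs (h.ne_w (by omega) (by omega) (by omega : i ≠ i + 1))
    (h.ne_w (by omega) (by omega) (by omega)) (h.ne_w (by omega) (by omega) (by omega))
    (h.ne_w (by omega) (by omega) (by omega)) (h.ne_w (by omega) (by omega) (by omega))
    (h.unc i (by omega)) (h.und i (by omega))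
  have e2 := sm_edge hX (h.ne_w (by omega) (by omega) (by omega : i ≠ i + 1))
    (h.ne_w (by omega) (by omega) (by omega)) (h.ne_w (by omega) (by omega) (by omega))
    (h.ne_w (by omega) (by omega) (by omega)) (h.ne_w (by omega) (by omega) (by omega))
    (hu i (by omega)) (h.und i (by omega))
  have h2 : (2 : ZMod 2) = 0 := by decide
  linear_combination e2 - e1 + (z2 (inn T (w 0) u (w p) A (w i)) - z2 (inn T (w 0) B (w p) A (w (i + 1)))) * h2

theorem inn_const {u : V} (hX : T.X (w 0) u (w p) A = true)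
    (hu : ∀ i < p, T.X (w 0) u (w i) (w (i + 1)) = false) {i : ℕ} (h1 : 0 < i) : ∀ j, i ≤ j → j < p →
    z2 (inn T (w 0) B (w p) A (w i)) + z2 (inn T (w 0) u (w p) A (w i)) =
      z2 (inn T (w 0) B (w p) A (w j)) + z2 (inn T (w 0) u (w p) A (w j)) := by
  intro j hij
  induction j, hij using Nat.le_induction with
  | base => exact fun _ => rfl
  | succ j hij ih =>
    intro hj
    rw [ih (by omega), h.inn_step hX (by omega) hj hu]

/-- an edge at `w 0` which misses the path and has the side `1` at both ends misses `a` -/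
theorem lflag_nn {t : ℕ} (h1 : 2 ≤ t) (h2 : t < p)
    (hP : ∀ i < p, T.X (w 0) (w t) (w i) (w (i + 1)) = false) (hf : rf T w p A B t (w 0) = 1)
    (hs : sdL T w p A B (w t) = 1) : T.X (w p) A (w 0) (w t) = false := by
  by_contra hc
  have hX : T.X (w 0) (w t) (w p) A = true := by
    rw [T.xs4]
    cases e : T.X (w p) A (w 0) (w t) with
    | false => exact absurd e hc
    | true => rfl
  have n0 : ∀ i, 0 < i → i ≤ p → w i ≠ w 0 := fun i hi hp => h.ne_w hp (by omega) (by omega)
  have np : ∀ i, i < p → w i ≠ w p := fun i hi => h.ne_w (by omega) le_rfl (by omega)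
  have oA := h.offA
  have oB := h.offB
  obtain ⟨x0, wpA, wp0, w0A, BP, BA⟩ := T.ne _ _ _ _ h.crs
  have hz : ∀ {a b : Bool}, z2 a + z2 b = 0 → (a ^^ b) = false := by
    intro a b hab
    cases a <;> cases b <;> first | rfl | exact absurd hab (by decide)
  have hz1 : ∀ {a b : Bool}, z2 a + z2 b = 1 → (a ^^ b) = true := by
    intro a b hab
    cases a <;> cases b <;> first | rfl | exact absurd hab (by decide)
  have two : (2 : ZMod 2) = 0 := by decide
  -- the value at `w t`
  have c0 : z2 (inn T (w 0) (w t) (w p) A (w t)) = 0 := by rw [inn_u]; rfl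
  -- towards `w 1`
  have k1 := h.inn_const hX hP (i := 1) (by omega) t (by omega) h2
  have k2 : inn T (w 0) B (w p) A (w 1) = T.alt (w 0) B (w p) (w 1) A := by
    apply inn_cor h.crs (n0 1 (by omega) (by omega)) (oB 1 (by omega)) (np 1 (by omega)) (oA 1 (by omega))
    rw [T.xs4]; exact h.und 0 (by omega)
  have k3 : inn T (w 0) (w t) (w p) A (w 1) = T.alt (w 0) (w t) (w p) (w 1) A := by
    apply inn_cor hX (n0 1 (by omega) (by omega)) (h.ne_w (by omega) (by omega) (by omega)) (np 1 (by omega))
      (oA 1 (by omega))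
    rw [T.xs4]; exact h.und 0 (by omega)
  -- towards `w (p - 1)`
  have k4 : inn T (w 0) B (w p) A (w (p - 1)) = T.alt (w p) A (w 0) (w (p - 1)) B := by
    apply inn_cor' h.crs (n0 (p - 1) (by omega) (by omega)) (oB _ (by omega)) (np _ (by omega)) (oA _ (by omega))
    have e := h.unc (p - 1) (by omega)
    rw [show p - 1 + 1 = p by omega, T.xs4, T.xs1] at e
    exact e
  have k5 : z2 (inn T (w 0) B (w p) A (w t)) = z2 (T.alt (w p) A (w 0) B (w t)) := by
    by_cases ht : t = p - 1
    · rw [ht, k4]
      exact c_sw2 T _ _ _ _ _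
    · have k6 : inn T (w 0) (w t) (w p) A (w (p - 1)) = T.alt (w p) A (w 0) (w (p - 1)) (w t) := by
        apply inn_cor' hX (n0 (p - 1) (by omega) (by omega)) (h.ne_w (by omega) (by omega) (by omega))
          (np _ (by omega)) (oA _ (by omega))
        have e := hP (p - 1) (by omega)
        rw [show p - 1 + 1 = p by omega, T.xs4, T.xs1] at e
        exact e
      have k7 := h.inn_const hX hP (i := t) (by omega) (p - 1) (by omega) (by omega)
      rw [c0, add_zero, k4, k6] at k7
      rw [k7]
      have k8 := al_add (T := T) (u := w p) (a := A) (b := w 0) (y := B) (z := w t) (w := w (p - 1)) wpA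
        (np 0 (by omega)).symm w0A.symm BP BA x0.symm (np t h2) (oA t (by omega)) (n0 t (by omega) (by omega))
        (np _ (by omega)) (oA _ (by omega)) (n0 _ (by omega) (by omega))
      rw [c_sw2 T (w p) A (w 0) B (w (p - 1)), c_sw2 T (w p) A (w 0) (w t) (w (p - 1))] at k8
      exact k8
  refine ch_l4 (T := T) (o := w 0) (B := B) (p := w p) (A := A) (t := w t) (x := w 1) ?_ h.crs hX ?_ ?_ ?_ ?_ ?_
  · have q1 := n0 t (by omega) (by omega)
    have q2 := n0 1 (by omega) (by omega)
    have q3 := np t h2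
    have q4 := np 1 (by omega)
    have q5 := oA t (by omega)
    have q6 := oA 1 (by omega)
    have q7 := oB t (by omega)
    have q8 := oB 1 (by omega)
    have q9 : w t ≠ w 1 := h.ne_w (by omega) (by omega) (by omega)
    simp [x0, wp0, w0A, q1.symm, q2.symm, BP, BA, q7.symm, q8.symm, wpA, q3.symm, q4.symm, q5.symm, q6.symm, q9]
  · have e := h.lflag_rf h1 h2 hP
    rw [hf] at e
    exact hz1 e.symm
  · have e := h.lflag_sd (w t)
    rw [hs] at e
    exact hz1 e.symm
  · rw [T.xs4]; exact h.und 0 (by omega)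
  · apply hz
    change z2 (inn T (w 0) B (w p) A (w t)) + z2 (T.alt (w p) A (w 0) B (w t)) = 0
    rw [k5, two_z]
  · have e1 : z2 (inn T (w 0) B (w p) A (w t)) + z2 (T.alt (w 0) B (w p) (w 1) A ^^
        T.alt (w 0) (w t) (w p) (w 1) A) = 0 := by
      rw [z2_xor, ← k2, ← k3, k1, c0, add_zero, two_z]
    exact hz e1

end Room

end H30P
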