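import Pool.Agent.Lib.H30P.Il
import Pool.Agent.Lib.H8C.F

/-!
# H8C, file Conv: convex polygons

`Cvx T c n` with `Per c n` (period `n`, `4 ≤ n`). All statements are for positions (natural numbers) in one window
of length `n`.

* `cvx_unc`: the polygon crosses no edge between two of its vertices; `cvx_pg`: it is plane;
* `cvx_side`: all chords start on the same side;
* `pfl_ref`: change of the reference vertex; `pfl T c n x i (c j) = 0`: `x` is on the side of the chords,
  `= 1`: `x` is on the empty side;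
* `Sel`, `sel_per`, `sel_pg`, `sel_cvx`: sub-polygons;
* `tt_ref`: `tt T (c i) (c j) (c k) (c l) x` does not depend on the fourth vertex `c l` (`= 1`: `x` is in the
  triangle);
* `fan_sum`, `fan_one`, `fan_exists`, `fan_none`: fan triangles; `tri_none`: no triangle contains a vertex of
  the empty side; `sel_out`: the empty side is on the empty side of every sub-polygon with four vertices;
* `out_chord`: an uncrossed edge on the empty side crosses no chord.
-/

set_option autoImplicit false
set_option linter.unusedSectionVars false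
set_option linter.unusedVariables false

namespace H8C

open H53P H30P Finset

variable {V : Type*} [DecidableEq V] {T : Table V} {c : ℕ → V} {n : ℕ}

/-! ### Elementary facts -/

theorem x4_true {a b d e : V} (h : T.X a b d e = true) : x4 T a b d e = 1 := by
  unfold x4
  rw [h]
  rfl

theorem x4_false {a b d e : V} (h : T.X a b d e = false) : x4 T a b d e = 0 := by
  unfold x4
  rw [h]
  rfl

/-- shared vertices -/
theorem X_sh1 (T : Table V) (a b d : V) : T.X a b a d = false := by
  cases h : T.X a b a d with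
  | false => rfl
  | true => exact absurd rfl (T.ne _ _ _ _ h).2.2.1

theorem X_sh2 (T : Table V) (a b d : V) : T.X a b d a = false := by
  cases h : T.X a b d a with
  | false => rfl
  | true => exact absurd rfl (T.ne _ _ _ _ h).2.2.2.1

theorem X_sh3 (T : Table V) (a b d : V) : T.X a b b d = false := by
  cases h : T.X a b b d with
  | false => rfl
  | true => exact absurd rfl (T.ne _ _ _ _ h).2.2.2.2.1

theorem X_sh4 (T : Table V) (a b d : V) : T.X a b d b = false := by
  cases h : T.X a b d b with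
  | false => rfl
  | true => exact absurd rfl (T.ne _ _ _ _ h).2.2.2.2.2

/-- alternating positions cross -/
theorem cx1 (hC : Cvx T c n) {i j k l : ℕ} (h1 : i < j) (h2 : j < k) (h3 : k < l) (h4 : l < i + n) :
    x4 T (c i) (c k) (c j) (c l) = 1 := x4_true (hC i j k l h1 h2 h3 h4)

theorem cx0X (hC : Cvx T c n) {i j k l : ℕ} (h1 : i < j) (h2 : j < k) (h3 : k < l) (h4 : l < i + n) :
    T.X (c i) (c j) (c k) (c l) = false := T.one _ _ _ _ (hC i j k l h1 h2 h3 h4)

theorem cx0 (hC : Cvx T c n) {i j k l : ℕ} (h1 : i < j) (h2 : j < k) (h3 : k < l) (h4 : l < i + n) :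
    x4 T (c i) (c j) (c k) (c l) = 0 := x4_false (cx0X hC h1 h2 h3 h4)

theorem cx0X' (hC : Cvx T c n) {i j k l : ℕ} (h1 : i < j) (h2 : j < k) (h3 : k < l) (h4 : l < i + n) :
    T.X (c i) (c l) (c j) (c k) = false := by
  have h := hC i j k l h1 h2 h3 h4
  rw [T.xs2] at h
  have h5 := T.one _ _ _ _ h
  rw [T.xs2] at h5
  exact h5

theorem cx0' (hC : Cvx T c n) {i j k l : ℕ} (h1 : i < j) (h2 : j < k) (h3 : k < l) (h4 : l < i + n) :
    x4 T (c i) (c l) (c j) (c k) = 0 := x4_false (cx0X' hC h1 h2 h3 h4)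

/-- a representative in the window which starts at `k` -/
theorem rep (h : Per c n) (k i : ℕ) : ∃ i', k ≤ i' ∧ i' < k + n ∧ c i' = c i := by
  have hn := h.three
  have hk := Nat.mod_lt k (show 0 < n by omega)
  have hi := Nat.mod_lt i (show 0 < n by omega)
  have e := Nat.mod_add_div k n
  by_cases h1 : k % n ≤ i % n
  · refine ⟨i % n + n * (k / n), by omega, by omega, ?_⟩
    rw [h.add_mul, h.mod]
  · refine ⟨i % n + n * (k / n + 1), ?_, ?_, ?_⟩
    · rw [Nat.mul_add]; omega
    · rw [Nat.mul_add]; omega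
    · rw [h.add_mul, h.mod]

/-- (1) the polygon crosses no edge between two of its vertices -/
theorem cvx_unc (h : Per c n) (hC : Cvx T c n) (i j : ℕ) : Unc T c (c i) (c j) := by
  have key : ∀ k i' j', k + 1 < i' → i' < j' → j' < k + n →
      T.X (c i') (c j') (c k) (c (k + 1)) = false := by
    intro k i' j' h1 h2 h3
    have := cx0X hC (i := k) (j := k + 1) (k := i') (l := j') (by omega) h1 h2 h3
    rw [T.xs4]
    exact this
  intro k
  obtain ⟨i', a1, a2, a3⟩ := rep h k i
  obtain ⟨j', b1, b2, b3⟩ := rep h k j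
  rw [← a3, ← b3]
  by_cases e1 : i' = k
  · rw [e1]; exact X_sh1 T _ _ _
  by_cases e2 : i' = k + 1
  · rw [e2]; exact X_sh2 T _ _ _
  by_cases e3 : j' = k
  · rw [e3]; exact X_sh3 T _ _ _
  by_cases e4 : j' = k + 1
  · rw [e4]; exact X_sh4 T _ _ _
  rcases lt_trichotomy i' j' with e5 | e5 | e5
  · exact key k i' j' (by omega) e5 b2
  · rw [e5]; exact X_deg T _ _ _
  · rw [T.xs1]
    exact key k j' i' (by omega) e5 a2

theorem cvx_pg (h : Per c n) (hC : Cvx T c n) : Pg T c n where
  toPer := h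
  plane i j := cvx_unc h hC i (i + 1) j

/-! ### Start sides -/

theorem al_cvx (h : Per c n) (hC : Cvx T c n) {i j k : ℕ} (h1 : i + 1 < j) (h2 : j < k) (h3 : k + 1 < i + n) :
    al T (c i) (c (i + 1)) (c (i + n - 1)) (c j) (c k) = 0 := by
  rw [al_eq]
  unfold tt
  have e1 : x4 T (c i) (c j) (c (i + 1)) (c (i + n - 1)) = 1 :=
    cx1 hC (by omega) h1 (by omega) (by omega)
  have e2 : x4 T (c j) (c k) (c (i + 1)) (c (i + n - 1)) = 0 := by
    rw [x4_4]
    exact cx0' hC h1 h2 (by omega) (by omega)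
  have e3 : x4 T (c k) (c i) (c (i + 1)) (c (i + n - 1)) = 1 := by
    rw [x4_1]
    exact cx1 hC (by omega) (by omega) (by omega) (by omega)
  have e4 : x4 T (c j) (c k) (c i) (c (i + 1)) = 0 := by
    rw [x4_4]
    exact cx0 hC (by omega) h1 h2 (by omega)
  have e5 : x4 T (c j) (c k) (c i) (c (i + n - 1)) = 0 := by
    rw [x4_4]
    exact cx0' hC (by omega) h2 (by omega) (by omega)
  rw [e1, e2, e3, e4, e5]
  decide

/-- chords with a common end -/
theorem side_one (h : Per c n) (hC : Cvx T c n) {w : V} (hw : ∀ k, c k ≠ w) {i j k : ℕ} (h1 : i + 2 ≤ j)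
    (h2 : j < k) (h3 : k + 2 ≤ i + n) : pfl T c n w i (c j) = pfl T c n w i (c k) := by
  have h4 := al_add (T := T) (u := c i) (a := c (i + 1)) (b := c (i + n - 1)) (y := c j) (z := c k) (w := w)
    (h.ne_of (by omega) (by omega)) (h.ne_of (by omega) (by omega)) (h.ne_of (by omega) (by omega))
    (h.ne_of (by omega) (by omega)).symm (h.ne_of (by omega) (by omega)).symm (h.ne_of (by omega) (by omega))
    (h.ne_of (by omega) (by omega)).symm (h.ne_of (by omega) (by omega)).symm (h.ne_of (by omega) (by omega))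
    (hw _).symm (hw _).symm (hw _).symm
  rw [al_cvx h hC (by omega) h2 (by omega)] at h4
  unfold pfl
  have h5 := two_z (al T (c i) (c (i + 1)) (c (i + n - 1)) (c k) w)
  linear_combination h4 - h5

/-- the two ends of a chord -/
theorem side_two (h : Per c n) (hC : Cvx T c n) {w : V} (hw : ∀ k, c k ≠ w) {i j : ℕ} (h1 : i + 2 ≤ j)
    (h2 : j + 2 ≤ i + n) : pfl T c n w i (c j) = pfl T c n w j (c i) := by
  have h3 := pfl_two h hw h1 h2 (T := T)
  rw [pc_unc h (cvx_unc h hC i j)] at h3
  have h4 := two_z (pfl T c n w j (c i))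
  linear_combination h3 - h4

theorem side_std (h : Per c n) (hC : Cvx T c n) {w : V} (hw : ∀ k, c k ≠ w) {i j : ℕ} (h1 : i + 2 ≤ j)
    (h2 : j + 2 ≤ i + n) : pfl T c n w i (c j) = pfl T c n w i (c (i + 2)) := by
  rcases Nat.lt_or_ge (i + 2) j with h3 | h3
  · exact (side_one h hC hw le_rfl h3 h2).symm
  · rw [show j = i + 2 by omega]

/-- period of the start side -/
theorem pfl_per (h : Per c n) (w : V) (i : ℕ) (z : V) : pfl T c n w (i + n) z = pfl T c n w i z := by
  have hn := h.three
  unfold pfl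
  rw [h.per, show i + n + 1 = (i + 1) + n by ring, h.per, show i + n + n - 1 = (i + n - 1) + n by omega,
    h.per]

/-- five points, in `ZMod 2` -/
theorem p5z {a b d e w : V} (hN : [a, b, d, e, w].Nodup) :
    x4 T a b d e + x4 T a d b e + x4 T a e b d + x4 T a b d w + x4 T a d b w + x4 T a w b d +
    x4 T a b e w + x4 T a e b w + x4 T a w b e + x4 T a d e w + x4 T a e d w + x4 T a w d e +
    x4 T b d e w + x4 T b e d w + x4 T b w d e = 1 := by
  have h := congrArg z2 (p5 (T := T) hN)
  simp only [z2_xor, z2_true] at h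
  exact h

/-- consecutive vertices -/
theorem side_succ (h : Per c n) (hC : Cvx T c n) (h4 : 4 ≤ n) {w : V} (hw : ∀ k, c k ≠ w) (i : ℕ) :
    pfl T c n w i (c (i + 2)) = pfl T c n w (i + 1) (c (i + 1 + 2)) := by
  rcases Nat.lt_or_ge 4 n with h5 | h5
  · have a1 := side_std h hC hw (i := i) (j := i + 3) (by omega) (by omega)
    have a2 := side_two h hC hw (i := i) (j := i + 3) (by omega) (by omega)
    have a3 := side_std h hC hw (i := i + 3) (j := i + n) (by omega) (by omega)
    rw [h.per] at a3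
    have b1 := side_two h hC hw (i := i + 1) (j := i + 1 + 2) (by omega) (by omega)
    have b2 := side_std h hC hw (i := i + 3) (j := i + 1 + n) (by omega) (by omega)
    rw [h.per] at b2
    rw [show i + 1 + 2 = i + 3 by omega] at b1 ⊢
    rw [← a1, a2, a3, b1, b2]
  · have h6 : n = 4 := by omega
    subst h6
    have n01 : c i ≠ c (i + 1) := h.ne_of (by omega) (by omega)
    have n02 : c i ≠ c (i + 2) := h.ne_of (by omega) (by omega)
    have n03 : c i ≠ c (i + 3) := h.ne_of (by omega) (by omega)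
    have n12 : c (i + 1) ≠ c (i + 2) := h.ne_of (by omega) (by omega)
    have n13 : c (i + 1) ≠ c (i + 3) := h.ne_of (by omega) (by omega)
    have n23 : c (i + 2) ≠ c (i + 3) := h.ne_of (by omega) (by omega)
    have p := p5z (T := T) (a := c i) (b := c (i + 1)) (d := c (i + 2)) (e := c (i + 3)) (w := w)
      (by simp [n01, n02, n03, n12, n13, n23, hw])
    have e1 : x4 T (c i) (c (i + 1)) (c (i + 2)) (c (i + 3)) = 0 :=
      cx0 hC (by omega) (by omega) (by omega) (by omega)
    have e2 : x4 T (c i) (c (i + 2)) (c (i + 1)) (c (i + 3)) = 1 :=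
      cx1 hC (by omega) (by omega) (by omega) (by omega)
    have e3 : x4 T (c i) (c (i + 3)) (c (i + 1)) (c (i + 2)) = 0 :=
      cx0' hC (by omega) (by omega) (by omega) (by omega)
    unfold pfl
    rw [pc_pe' h (c i) w i, pc_pe' h (c (i + 1)) w i]
    unfold asum
    rw [Finset.sum_Ico_eq_sum_range, Finset.sum_Ico_eq_sum_range, show i + 4 - i = 4 by omega]
    rw [Finset.sum_range_succ, Finset.sum_range_succ, Finset.sum_range_succ, Finset.sum_range_succ,
      Finset.sum_range_zero, Finset.sum_range_succ, Finset.sum_range_succ, Finset.sum_range_succ,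
      Finset.sum_range_succ, Finset.sum_range_zero]
    rw [show i + 3 + 1 = i + 4 by ring, show i + 2 + 1 = i + 3 by ring, show i + 1 + 1 = i + 2 by ring,
      show i + 0 = i by ring, show i + 4 - 1 = i + 3 by omega, show i + 1 + 4 - 1 = i + 4 by omega,
      show i + 1 + 2 = i + 3 by ring, h.per i]
    rw [al_eq, al_eq]
    unfold tt
    rw [x4_adj1 T (c i) w (c (i + 1)), x4_adj2 T (c i) w (c (i + 3)), x4_adj2 T (c (i + 1)) w (c i),
      x4_adj1 T (c (i + 1)) w (c (i + 2))]
    rw [x4_4 T (c (i + 2)) w (c (i + 1)) (c (i + 3)), x4_4 T w (c i) (c (i + 1)) (c (i + 3)),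
      x4_4 T (c (i + 2)) w (c i) (c (i + 1)), x4_4 T (c (i + 2)) w (c i) (c (i + 3)),
      x4_4 T (c (i + 3)) w (c (i + 2)) (c i), x4_4 T w (c (i + 1)) (c (i + 2)) (c i),
      x4_4 T (c (i + 3)) w (c (i + 1)) (c (i + 2)), x4_4 T (c (i + 3)) w (c (i + 1)) (c i),
      x4_1 T (c (i + 2)) (c i) (c (i + 3)) w, x4_1 T (c (i + 2)) (c i) w (c (i + 1)),
      x4_1 T (c (i + 1)) (c i) (c (i + 3)) w, x4_2 T (c (i + 1)) (c (i + 3)) w (c i),
      x4_4 T (c (i + 1)) (c (i + 3)) (c i) w, x4_2 T (c i) (c (i + 2)) w (c (i + 1)),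
      x4_4 T (c (i + 1)) (c (i + 3)) (c (i + 2)) (c i), x4_1 T (c (i + 2)) (c i) (c (i + 1)) (c (i + 3)),
      x4_2 T (c (i + 1)) w (c (i + 3)) (c i), x4_4 T (c (i + 1)) w (c i) (c (i + 3))]
    have z := two_z (1 : ZMod 2)
    have z1 := two_z (x4 T (c (i + 1)) w (c (i + 2)) (c (i + 3)) + x4 T (c i) (c (i + 3)) (c (i + 1)) w +
      (1 + x4 T (c i) (c (i + 2)) (c (i + 3)) w + x4 T (c i) (c (i + 2)) (c (i + 1)) w +
          x4 T (c (i + 1)) (c (i + 2)) (c (i + 3)) w + x4 T (c i) (c (i + 1)) (c (i + 3)) w))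
    rw [e2]
    linear_combination p - e1 - e2 - e3 + z - z1

/-- (1) all chords start on the same side -/
theorem cvx_side (h : Per c n) (hC : Cvx T c n) (h4 : 4 ≤ n) {w : V} (hw : ∀ k, c k ≠ w) {i j i' j' : ℕ}
    (h1 : i + 2 ≤ j) (h2 : j + 2 ≤ i + n) (h3 : i' + 2 ≤ j') (h5 : j' + 2 ≤ i' + n) :
    pfl T c n w i (c j) = pfl T c n w i' (c j') := by
  have key : ∀ k, pfl T c n w k (c (k + 2)) = pfl T c n w 0 (c (0 + 2)) := by
    intro k
    induction k with
    | zero => rfl
    | succ k ih => rw [← ih, side_succ h hC h4 hw k]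
  rw [side_std h hC hw h1 h2, side_std h hC hw h3 h5, key i, key i']

/-- change of the reference vertex -/
theorem pfl_ref (h : Per c n) {w x : V} (hw : ∀ k, c k ≠ w) (hx : ∀ k, c k ≠ x) {i j : ℕ} (h1 : i + 2 ≤ j)
    (h2 : j + 2 ≤ i + n) : pfl T c n w i (c j) + pfl T c n x i (c j) = pc T (pe c n) x w := by
  by_cases xw : x = w
  · subst xw
    rw [pc_self, two_z]
  have e1 := pc_one h.clo (h.nb i) (hx i) (hw i) xw (h.off hx) (h.off hw) h.lpl (T := T)
  have e2 := al_add (T := T) (u := c i) (a := c (i + 1)) (b := c (i + n - 1)) (y := x) (z := w) (w := c j)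
    (h.ne_of (by omega) (by omega)) (h.ne_of (by omega) (by omega)) (h.ne_of (by omega) (by omega))
    (hx _).symm (hx _).symm (hx _).symm (hw _).symm (hw _).symm (hw _).symm
    (h.ne_of (by omega) (by omega)).symm (h.ne_of (by omega) (by omega)).symm (h.ne_of (by omega) (by omega))
  have e3 : ∀ z, al T (c i) (c (i + 1)) (c (i + n - 1)) (c j) z = al T (c i) (c (i + 1)) (c (i + n - 1)) z (c j) := by
    intro z
    unfold al
    rw [T.as2]
  unfold pfl
  rw [e3 w, e3 x]
  rw [pc_symm T _ w (c i)] at e1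
  have z1 := two_z (pc T (pe c n) x w)
  have z3 := two_z (al T (c i) (c (i + 1)) (c (i + n - 1)) x w)
  linear_combination e1 + e2 - z1 + z3

/-! ### Triangles of the polygon -/

theorem z22 : (1 : ZMod 2) + 1 = 0 := by decide

/-- an edge between two other vertices crosses a triangle evenly: first case -/
theorem tt_cvxA (hC : Cvx T c n) {a b d l m : ℕ} (h1 : a < b) (h2 : b < d) (h3 : d < l) (h4 : l < a + n)
    (h5 : a < m) (h6 : m < a + n) (mb : m ≠ b) (md : m ≠ d) :
    tt T (c a) (c b) (c d) (c l) (c m) = 0 := by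
  unfold tt
  by_cases q1 : m < b
  · rw [x4_2 T (c a) (c b), cx1 hC h5 q1 (by omega) (by omega), x4_4 T (c b) (c d), x4_1 T (c l) (c m),
      cx0' hC q1 h2 h3 (by omega), x4_1 T (c d) (c a), x4_2 T (c a) (c d),
      cx1 hC h5 (by omega : m < d) h3 h4]
    decide
  by_cases q2 : m < d
  · rw [x4_2 T (c a) (c b), cx0 hC h1 (by omega : b < m) (by omega) h4, x4_2 T (c b) (c d),
      cx1 hC (by omega : b < m) q2 h3 (by omega), x4_1 T (c d) (c a), x4_2 T (c a) (c d),
      cx1 hC (by omega : a < m) q2 h3 h4]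
    decide
  by_cases q3 : m = l
  · subst q3
    rw [x4_deg2, x4_deg2, x4_deg2]
    decide
  rcases Nat.lt_or_ge m l with q4 | q4
  · rw [x4_2 T (c a) (c b), cx0 hC h1 (by omega : b < m) (by omega) h4, x4_2 T (c b) (c d),
      cx0 hC h2 (by omega : d < m) (by omega) (by omega), x4_1 T (c d) (c a), x4_2 T (c a) (c d),
      cx0 hC (by omega : a < d) (by omega : d < m) (by omega) h4]
    decide
  · rw [cx0 hC h1 (by omega : b < l) (by omega : l < m) h6,
      cx0 hC h2 (by omega : d < l) (by omega : l < m) (by omega), x4_1 T (c d) (c a),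
      cx0 hC (by omega : a < d) (by omega : d < l) (by omega : l < m) h6]
    decide

/-- an edge between two other vertices crosses a triangle evenly -/
theorem tt_cvx (h : Per c n) (hC : Cvx T c n) {a b d l m : ℕ} (h1 : a < b) (h2 : b < d) (h3 : d < a + n)
    (la : a < l) (lan : l < a + n) (lb : l ≠ b) (ld : l ≠ d)
    (ma : a < m) (man : m < a + n) (mb : m ≠ b) (md : m ≠ d) :
    tt T (c a) (c b) (c d) (c l) (c m) = 0 := by
  by_cases q1 : d < l
  · exact tt_cvxA hC h1 h2 q1 lan ma man mb md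
  by_cases q2 : b < l
  · -- triangle `d, a + n, b + n`
    rw [tt_rot, tt_rot, ← h.per a, ← h.per b, ← h.per l]
    by_cases q3 : d < m
    · exact tt_cvxA hC (by omega) (by omega) (by omega) (by omega) q3 (by omega) (by omega) (by omega)
    · rw [← h.per m]
      exact tt_cvxA hC (by omega) (by omega) (by omega) (by omega) (by omega) (by omega) (by omega) (by omega)
  · -- triangle `b, d, a + n`
    rw [tt_rot, ← h.per a, ← h.per l]
    by_cases q3 : b < m
    · exact tt_cvxA hC (by omega) (by omega) (by omega) (by omega) q3 (by omega) (by omega) (by omega)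
    · rw [← h.per m]
      exact tt_cvxA hC (by omega) (by omega) (by omega) (by omega) (by omega) (by omega) (by omega) (by omega)

/-- the reference vertex of a triangle -/
theorem tt_ref (h : Per c n) (hC : Cvx T c n) {x : V} (hx : ∀ k, c k ≠ x) {a b d l m : ℕ} (h1 : a < b)
    (h2 : b < d) (h3 : d < a + n)
    (la : a < l) (lan : l < a + n) (lb : l ≠ b) (ld : l ≠ d)
    (ma : a < m) (man : m < a + n) (mb : m ≠ b) (md : m ≠ d) :
    tt T (c a) (c b) (c d) (c l) x = tt T (c a) (c b) (c d) (c m) x := by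
  have ne : ∀ {p q : ℕ}, a ≤ p → p < a + n → a ≤ q → q < a + n → p ≠ q → c p ≠ c q := by
    intro p q p1 p2 q1 q2 pq
    rcases lt_trichotomy p q with r | r | r
    · exact h.ne_of r (by omega)
    · exact absurd r pq
    · exact (h.ne_of r (by omega)).symm
  have e := tt_tri T (x := c a) (y := c b) (z := c d) (a := c l) (b := c m) (c := x)
    (ne le_rfl (by omega) (by omega) (by omega) (by omega))
    (ne (by omega) (by omega) (by omega) (by omega) (by omega))
    (ne (by omega) (by omega) (by omega) (by omega) (by omega))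
    (ne (by omega) (by omega) (by omega) (by omega) (by omega))
    (ne (by omega) (by omega) (by omega) (by omega) (by omega))
    (ne (by omega) (by omega) (by omega) (by omega) (by omega))
    (ne (by omega) (by omega) (by omega) (by omega) (by omega))
    (ne (by omega) (by omega) (by omega) (by omega) (by omega))
    (ne (by omega) (by omega) (by omega) (by omega) (by omega))
    (hx _).symm (hx _).symm (hx _).symm
  rw [tt_cvx h hC h1 h2 h3 la lan lb ld ma man mb md, zero_add] at e
  exact e.symm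

/-! ### Fans -/

/-- crossings with an arc and a fan -/
theorem asum_fan (T : Table V) (c : ℕ → V) (x y p : V) {j k : ℕ} (hjk : j ≤ k) :
    asum T c x y j k + x4 T x y p (c j) + x4 T x y p (c k) = ∑ t ∈ Ico j k, tt T p (c t) (c (t + 1)) x y := by
  induction k, hjk using Nat.le_induction with
  | base =>
    unfold asum
    rw [Ico_self, sum_empty, sum_empty, zero_add, two_z]
  | succ k hk ih =>
    unfold asum at ih ⊢
    rw [sum_Ico_succ_top hk, sum_Ico_succ_top hk, ← ih]
    unfold tt
    rw [x4_4 T p (c k), x4_4 T (c k) (c (k + 1)), x4_4 T (c (k + 1)) p, x4_2 T x y (c (k + 1)) p]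
    have z1 := two_z (x4 T x y p (c k))
    linear_combination -z1

/-- the parity of a polygon is the sum over a fan -/
theorem pc_fan (h : Per c n) (x y p : V) (i : ℕ) :
    pc T (pe c n) x y = ∑ t ∈ Ico i (i + n), tt T p (c t) (c (t + 1)) x y := by
  rw [← asum_fan T c x y p (by omega : i ≤ i + n), ← pc_pe' h, h.per]
  have z1 := two_z (x4 T x y p (c i))
  linear_combination -z1

/-- degenerate triangles -/
theorem tt_deg1 (T : Table V) (a b x y : V) : tt T a a b x y = 0 := by
  unfold tt
  rw [x4_deg1, x4_1 T b a, zero_add, two_z]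

theorem tt_deg2 (T : Table V) (a b x y : V) : tt T a b a x y = 0 := by
  unfold tt
  rw [x4_deg1, x4_1 T b a, add_zero, two_z]

/-- (4) parity of the number of fan triangles which contain `x` -/
theorem fan_sum (h : Per c n) (hC : Cvx T c n) (h4 : 4 ≤ n) {x : V} (hx : ∀ k, c k ≠ x) (i : ℕ) (l : ℕ → ℕ)
    (hl : ∀ t, i < t → t + 1 < i + n → i < l t ∧ l t < i + n ∧ l t ≠ t ∧ l t ≠ t + 1) :
    ∑ t ∈ Ico (i + 1) (i + n - 1), tt T (c i) (c t) (c (t + 1)) (c (l t)) x =
      1 + pfl T c n x i (c (i + 2)) := by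
  have hP := cvx_pg h hC
  have h1 := chord_side hP hx (i := i) (m := 3) (k := i + 1) (l := i + 3) le_rfl (by omega)
    (cvx_unc h hC _ _) (by omega) (by omega) (by omega) (by omega)
  rw [show i + 3 - 1 = i + 2 by omega] at h1
  rw [← h1]
  rw [show Ico (i + 1) (i + n - 1) = Ico (i + 1) (i + 2) ∪ Ico (i + 2) (i + n - 1) from
    (Ico_union_Ico_eq_Ico (by omega) (by omega)).symm, sum_union (by
      rw [disjoint_left]
      intro t ht1 ht2
      rw [mem_Ico] at ht1 ht2
      omega)]
  congr 1
  · rw [show Ico (i + 1) (i + 2) = {i + 1} by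
      ext t
      rw [mem_Ico, mem_singleton]
      omega, sum_singleton]
    have e1 := hl (i + 1) (by omega) (by omega)
    rw [tt_ref h hC hx (by omega) (by omega) (by omega) e1.1 e1.2.1 e1.2.2.1 e1.2.2.2
      (m := i + 3) (by omega) (by omega) (by omega) (by omega)]
    rw [pc_sub h le_rfl (by omega), show i + 3 - 1 = i + 2 by omega]
    have e2 := asum_fan T c (c (i + 3)) x (c i) (j := i) (k := i + 2) (by omega)
    rw [x4_deg2, add_zero, x4_2 T (c (i + 3)) x (c i)] at e2
    rw [e2, show Ico i (i + 2) = {i, i + 1} by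
      ext t
      rw [mem_Ico, mem_insert, mem_singleton]
      omega, sum_pair (by omega), tt_deg1, zero_add]
  · rw [pc_sub h (by omega) (by omega), show i + 2 + (n + 2 - 3) - 1 = i + n by omega, h.per]
    have e2 := asum_fan T c (c (i + 1)) x (c i) (j := i + 2) (k := i + n) (by omega)
    rw [h.per, x4_deg2, add_zero] at e2
    rw [e2]
    rw [show i + n = (i + n - 1) + 1 by omega, sum_Ico_succ_top (by omega : i + 2 ≤ i + n - 1),
      show i + n - 1 + 1 = i + n by omega, h.per, tt_deg2, add_zero]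
    apply sum_congr rfl
    intro t ht
    rw [mem_Ico] at ht
    have e1 := hl t (by omega) (by omega)
    exact tt_ref h hC hx (by omega) (by omega) (by omega) e1.1 e1.2.1 e1.2.2.1 e1.2.2.2
      (by omega) (by omega) (by omega) (by omega)

/-- `tt` as a Boolean -/
theorem tt_crT (T : Table V) (a b d x y : V) : tt T a b d x y = z2 (T.crT a b d x y) := by
  unfold Table.crT crTX tt x4
  rw [z2_xor, z2_xor, T.xs4 a b x y, T.xs4 b d x y, T.xs4 d a x y]

theorem tt_one {a b d x y : V} (h : tt T a b d x y = 1) : T.crT a b d x y = true := by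
  rw [tt_crT] at h
  cases e : T.crT a b d x y with
  | true => rfl
  | false =>
    rw [e] at h
    exact absurd h (by decide)

/-- two fan triangles do not both contain `x` -/
theorem fan_one (h : Per c n) (hC : Cvx T c n) {x : V} (hx : ∀ k, c k ≠ x) {i s t l m : ℕ}
    (h1 : i < s) (h2 : s < t) (h3 : t + 1 < i + n)
    (li : i < l) (ln : l < i + n) (ls : l ≠ s) (ls' : l ≠ s + 1)
    (mi : i < m) (mn : m < i + n) (mt : m ≠ t) (mt' : m ≠ t + 1)
    (e1 : tt T (c i) (c s) (c (s + 1)) (c l) x = 1) (e2 : tt T (c i) (c t) (c (t + 1)) (c m) x = 1) : False := by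
  rw [tt_ref h hC hx (by omega) (by omega) (by omega) li ln ls ls' (m := t + 1) (by omega) (by omega)
    (by omega) (by omega)] at e1
  rw [tt_ref h hC hx (by omega) (by omega) (by omega) mi mn mt mt' (m := s) (by omega) (by omega)
    (by omega) (by omega)] at e2
  have a1 := tt_one e1
  have a2 := tt_one e2
  have n1 : c i ≠ c s := h.ne_of (by omega) (by omega)
  have n2 : c i ≠ c (s + 1) := h.ne_of (by omega) (by omega)
  have n4 : c i ≠ c (t + 1) := h.ne_of (by omega) (by omega)
  have n5 : c s ≠ c (s + 1) := h.ne_of (by omega) (by omega)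
  have n7 : c s ≠ c (t + 1) := h.ne_of (by omega) (by omega)
  have n9 : c (s + 1) ≠ c (t + 1) := h.ne_of (by omega) (by omega)
  by_cases st : t = s + 1
  · subst st
    exact fan5_f (T := T) (p := c i) (a := c s) (b := c (s + 1)) (e := c (s + 1 + 1)) (x := x)
      (by simp [n1, n2, n4, n5, n7, n9, hx])
      (hC i s (s + 1) (s + 1 + 1) (by omega) (by omega) (by omega) (by omega)) a1 a2
  · have n3 : c i ≠ c t := h.ne_of (by omega) (by omega)
    have n6 : c s ≠ c t := h.ne_of (by omega) (by omega)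
    have n8 : c (s + 1) ≠ c t := h.ne_of (by omega) (by omega)
    have n10 : c t ≠ c (t + 1) := h.ne_of (by omega) (by omega)
    exact fan6_f (T := T) (p := c i) (a := c s) (b := c (s + 1)) (d := c t) (e := c (t + 1)) (x := x)
      (by simp [n1, n2, n3, n4, n5, n6, n7, n8, n9, n10, hx])
      (hC i s (s + 1) t (by omega) (by omega) (by omega) (by omega))
      (hC i s (s + 1) (t + 1) (by omega) (by omega) (by omega) (by omega))
      (hC i s t (t + 1) (by omega) (by omega) (by omega) (by omega))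
      (hC i (s + 1) t (t + 1) (by omega) (by omega) (by omega) (by omega))
      (hC s (s + 1) t (t + 1) (by omega) (by omega) (by omega) (by omega)) a1 a2

theorem z01 (a : ZMod 2) : a = 0 ∨ a = 1 := by
  revert a
  decide

/-- (4) if `x` is on the side of the chords then exactly one fan triangle at `c i` contains it -/
theorem fan_exists (h : Per c n) (hC : Cvx T c n) (h4 : 4 ≤ n) {x : V} (hx : ∀ k, c k ≠ x) (i : ℕ)
    (hs : pfl T c n x i (c (i + 2)) = 0) :
    ∃ t, i < t ∧ t + 1 < i + n ∧ ∀ l, i < l → l < i + n → l ≠ t → l ≠ t + 1 →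
      tt T (c i) (c t) (c (t + 1)) (c l) x = 1 := by
  obtain ⟨l, hl⟩ : ∃ l : ℕ → ℕ, ∀ t, i < t → t + 1 < i + n → i < l t ∧ l t < i + n ∧ l t ≠ t ∧ l t ≠ t + 1 := by
    refine ⟨fun t => if t = i + 1 then i + 3 else i + 1, fun t h1 h2 => ?_⟩
    show i < (if t = i + 1 then i + 3 else i + 1) ∧ _
    by_cases e : t = i + 1
    · simp only [if_pos e]
      omega
    · simp only [if_neg e]
      omega
  have h1 := fan_sum h hC h4 hx i l hl
  rw [hs, add_zero] at h1
  by_contra hcon
  push Not at hcon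
  have h2 : ∑ t ∈ Ico (i + 1) (i + n - 1), tt T (c i) (c t) (c (t + 1)) (c (l t)) x = 0 := by
    apply sum_eq_zero
    intro t ht
    rw [mem_Ico] at ht
    obtain ⟨m, m1, m2, m3, m4, m5⟩ := hcon t (by omega) (by omega)
    have e1 := hl t (by omega) (by omega)
    rw [tt_ref h hC hx (by omega) (by omega) (by omega) e1.1 e1.2.1 e1.2.2.1 e1.2.2.2 m1 m2 m3 m4]
    rcases z01 (tt T (c i) (c t) (c (t + 1)) (c m) x) with r | r
    · exact r
    · exact absurd r m5
  rw [h2] at h1
  exact absurd h1 (by decide)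

/-- (4) if `x` is on the empty side then no fan triangle contains it -/
theorem fan_none (h : Per c n) (hC : Cvx T c n) (h4 : 4 ≤ n) {x : V} (hx : ∀ k, c k ≠ x) {i : ℕ}
    (hs : pfl T c n x i (c (i + 2)) = 1) {t l : ℕ} (h1 : i < t) (h2 : t + 1 < i + n)
    (h3 : i < l) (h5 : l < i + n) (h6 : l ≠ t) (h7 : l ≠ t + 1) :
    tt T (c i) (c t) (c (t + 1)) (c l) x = 0 := by
  rcases z01 (tt T (c i) (c t) (c (t + 1)) (c l) x) with r | r
  · exact r
  exfalso
  obtain ⟨m, hm⟩ : ∃ m : ℕ → ℕ, ∀ t, i < t → t + 1 < i + n → i < m t ∧ m t < i + n ∧ m t ≠ t ∧ m t ≠ t + 1 := by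
    refine ⟨fun t => if t = i + 1 then i + 3 else i + 1, fun t h1 h2 => ?_⟩
    show i < (if t = i + 1 then i + 3 else i + 1) ∧ _
    by_cases e : t = i + 1
    · simp only [if_pos e]
      omega
    · simp only [if_neg e]
      omega
  have e1 := fan_sum h hC h4 hx i m hm
  rw [hs, z22] at e1
  rw [sum_eq_single t] at e1
  · have e2 := hm t h1 h2
    rw [tt_ref h hC hx h1 (by omega) h2 e2.1 e2.2.1 e2.2.2.1 e2.2.2.2 h3 h5 h6 h7, r] at e1
    exact absurd e1 (by decide)
  · intro s hs1 hs2
    rw [mem_Ico] at hs1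
    rcases z01 (tt T (c i) (c s) (c (s + 1)) (c (m s)) x) with q | q
    · exact q
    exfalso
    have e2 := hm s (by omega) (by omega)
    rcases lt_or_gt_of_ne hs2 with q1 | q1
    · exact fan_one h hC hx (by omega) q1 h2 e2.1 e2.2.1 e2.2.2.1 e2.2.2.2 h3 h5 h6 h7 q r
    · exact fan_one h hC hx h1 q1 (by omega) h3 h5 h6 h7 e2.1 e2.2.1 e2.2.2.1 e2.2.2.2 r q
  · intro hs1
    rw [mem_Ico, not_and_or] at hs1
    omega

/-- `x` is on the empty side -/
def Out (T : Table V) (c : ℕ → V) (n : ℕ) (x : V) : Prop := pfl T c n x 0 (c 2) = 1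

theorem out_iff (h : Per c n) (hC : Cvx T c n) (h4 : 4 ≤ n) {x : V} (hx : ∀ k, c k ≠ x) {i j : ℕ}
    (h1 : i + 2 ≤ j) (h2 : j + 2 ≤ i + n) : Out T c n x ↔ pfl T c n x i (c j) = 1 := by
  unfold Out
  rw [cvx_side h hC h4 hx (i := i) (j := j) (i' := 0) (j' := 2) h1 h2 (by omega) (by omega)]

/-- the empty side with another reference vertex -/
theorem out_pc (h : Per c n) (hC : Cvx T c n) (h4 : 4 ≤ n) {x w : V} (hx : ∀ k, c k ≠ x) (hw : ∀ k, c k ≠ w)
    {i j : ℕ} (h1 : i + 2 ≤ j) (h2 : j + 2 ≤ i + n) :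
    Out T c n x ↔ pc T (pe c n) x w = pfl T c n w i (c j) + 1 := by
  rw [out_iff h hC h4 hx h1 h2, ← pfl_ref h hw hx h1 h2]
  constructor
  · intro e
    rw [e]
  · intro e
    exact add_left_cancel e

/-- two vertices on different sides: one is on the empty side -/
theorem out_or (h : Per c n) (hC : Cvx T c n) (h4 : 4 ≤ n) {x y : V} (hx : ∀ k, c k ≠ x) (hy : ∀ k, c k ≠ y)
    (e : pc T (pe c n) x y = 0) : Out T c n x ↔ Out T c n y := by
  have e1 := pfl_ref h hy hx (i := 0) (j := 2) (by omega) (by omega) (T := T)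
  rw [e] at e1
  unfold Out
  have e2 := two_z (pfl T c n x 0 (c 2))
  have e3 : pfl T c n y 0 (c 2) = pfl T c n x 0 (c 2) := by linear_combination e1 - e2
  rw [e3]

/-- no triangle of the polygon contains a vertex of the empty side -/
theorem tri_none (h : Per c n) (hC : Cvx T c n) (h4 : 4 ≤ n) {x : V} (hx : ∀ k, c k ≠ x) (ho : Out T c n x)
    {a b d l : ℕ} (h1 : a < b) (h2 : b < d) (h3 : d < a + n)
    (la : a < l) (lan : l < a + n) (lb : l ≠ b) (ld : l ≠ d) : tt T (c a) (c b) (c d) (c l) x = 0 := by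
  have fan : ∀ i t l, i < t → t + 1 < i + n → i < l → l < i + n → l ≠ t → l ≠ t + 1 →
      tt T (c i) (c t) (c (t + 1)) (c l) x = 0 := by
    intro i t l q1 q2 q3 q4 q5 q6
    exact fan_none h hC h4 hx ((out_iff h hC h4 hx (by omega) (by omega)).1 ho) q1 q2 q3 q4 q5 q6
  -- the vertex `c l` in the last gap
  have key : ∀ a b d l, a < b → b < d → d < l → l < a + n → tt T (c a) (c b) (c d) (c l) x = 0 := by
    intro a b d l q1 q2 q3 q4
    have e1 := asum_fan T c (c l) x (c a) (j := b) (k := d) q2.le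
    have e2 := asum_fan T c (c l) x (c b) (j := b) (k := d) q2.le
    have s1 : ∑ t ∈ Ico b d, tt T (c a) (c t) (c (t + 1)) (c l) x = 0 := by
      apply sum_eq_zero
      intro t ht
      rw [mem_Ico] at ht
      exact fan a t l (by omega) (by omega) (by omega) (by omega) (by omega) (by omega)
    have s2 : ∑ t ∈ Ico b d, tt T (c b) (c t) (c (t + 1)) (c l) x = 0 := by
      apply sum_eq_zero
      intro t ht
      rw [mem_Ico] at ht
      by_cases tb : t = b
      · rw [tb, tt_deg1]
      · exact fan b t l (by omega) (by omega) (by omega) (by omega) (by omega) (by omega)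
    rw [s1] at e1
    rw [s2, x4_deg2, add_zero] at e2
    unfold tt
    rw [x4_4 T (c a) (c b), x4_4 T (c b) (c d), x4_1 T (c d) (c a), x4_4 T (c a) (c d)]
    have z1 := two_z (asum T c (c l) x b d)
    linear_combination e1 + e2 - z1
  by_cases q1 : d < l
  · exact key a b d l h1 h2 q1 lan
  by_cases q2 : b < l
  · rw [tt_rot, tt_rot, ← h.per a, ← h.per b, ← h.per l]
    exact key _ _ _ _ (by omega) (by omega) (by omega) (by omega)
  · rw [tt_rot, ← h.per a, ← h.per l]
    exact key _ _ _ _ (by omega) (by omega) (by omega) (by omega)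

/-! ### Sub-polygons -/

/-- `φ` selects `m` positions in every window of length `n` -/
structure Sel (φ : ℕ → ℕ) (m n : ℕ) : Prop where
  mono : ∀ k, φ k < φ (k + 1)
  per : ∀ k, φ (k + m) = φ k + n

namespace Sel

variable {φ : ℕ → ℕ} {m : ℕ} (hS : Sel φ m n)

include hS

theorem lt {i j : ℕ} (h : i < j) : φ i < φ j := by
  induction j, h using Nat.le_induction with
  | base => exact hS.mono i
  | succ j _ ih => exact ih.trans (hS.mono j)

theorem ltn {i j : ℕ} (h : j < i + m) : φ j < φ i + n := by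
  rw [← hS.per]
  exact hS.lt h

end Sel

theorem sel_per (h : Per c n) {φ : ℕ → ℕ} {m : ℕ} (hS : Sel φ m n) (hm : 3 ≤ m) :
    Per (fun k => c (φ k)) m := by
  refine ⟨hm, fun k => ?_, fun i hi j hj hij => ?_⟩
  · show c (φ (k + m)) = c (φ k)
    rw [hS.per, h.per]
  · have hij' : c (φ i) = c (φ j) := hij
    rcases lt_trichotomy i j with q | q | q
    · exact absurd hij' (h.ne_of (hS.lt q) (hS.ltn (by omega)))
    · exact q
    · exact absurd hij'.symm (h.ne_of (hS.lt q) (hS.ltn (by omega)))

/-- (2) sub-polygons are convex -/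
theorem sel_cvx (hC : Cvx T c n) {φ : ℕ → ℕ} {m : ℕ} (hS : Sel φ m n) : Cvx T (fun k => c (φ k)) m :=
  fun _ _ _ _ h1 h2 h3 h4 => hC _ _ _ _ (hS.lt h1) (hS.lt h2) (hS.lt h3) (hS.ltn h4)

/-- (2) sub-polygons are plane -/
theorem sel_pg (h : Per c n) (hC : Cvx T c n) {φ : ℕ → ℕ} {m : ℕ} (hS : Sel φ m n) (hm : 3 ≤ m) :
    Pg T (fun k => c (φ k)) m :=
  cvx_pg (sel_per h hS hm) (sel_cvx hC hS)

/-- (2) the empty side is on the empty side of every sub-polygon -/
theorem sel_out (h : Per c n) (hC : Cvx T c n) (h4 : 4 ≤ n) {x : V} (hx : ∀ k, c k ≠ x) (ho : Out T c n x)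
    {φ : ℕ → ℕ} {m : ℕ} (hS : Sel φ m n) (hm : 4 ≤ m) : Out T (fun k => c (φ k)) m x := by
  have h' := sel_per h hS (by omega : 3 ≤ m)
  have hC' := sel_cvx hC hS
  have hx' : ∀ k, (fun k => c (φ k)) k ≠ x := fun k => hx _
  rw [out_iff h' hC' hm hx' (i := 0) (j := 2) (by omega) (by omega)]
  rcases z01 (pfl T (fun k => c (φ k)) m x 0 ((fun k => c (φ k)) 2)) with q | q
  · exfalso
    obtain ⟨t, t1, t2, t3⟩ := fan_exists h' hC' hm hx' 0 q
    obtain ⟨l, l1, l2, l3, l4⟩ : ∃ l, 0 < l ∧ l < 0 + m ∧ l ≠ t ∧ l ≠ t + 1 := by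
      by_cases e : t = 1
      · exact ⟨3, by omega, by omega, by omega, by omega⟩
      · exact ⟨1, by omega, by omega, by omega, by omega⟩
    have e1 := t3 l l1 l2 l3 l4
    have ne : ∀ {p q : ℕ}, p ≠ q → φ p ≠ φ q := by
      intro p q pq
      rcases lt_or_gt_of_ne pq with r | r
      · exact (hS.lt r).ne
      · exact (hS.lt r).ne'
    have e2 := tri_none h hC h4 hx ho (hS.lt t1) (hS.lt (Nat.lt_succ_self t)) (hS.ltn t2) (hS.lt l1)
      (hS.ltn l2) (ne l3) (ne l4)
    rw [e2] at e1
    exact absurd e1 (by decide)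
  · exact q

/-- (3) an uncrossed edge with an end on the empty side crosses no chord -/
theorem out_chord (h : Per c n) (hC : Cvx T c n) (h4 : 4 ≤ n) {x y : V} (hx : ∀ k, c k ≠ x) (ho : Out T c n x)
    (hu : Unc T c x y) (i j : ℕ) : T.X x y (c i) (c j) = false := by
  cases e : T.X x y (c i) (c j) with
  | false => rfl
  | true =>
    exfalso
    obtain ⟨j', a1, a2, a3⟩ := rep h i j
    rw [← a3] at e
    obtain ⟨_, ij, _, _, _, _⟩ := T.ne _ _ _ _ e
    have q1 : i ≠ j' := fun r => ij (by rw [r])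
    by_cases q2 : j' = i + 1
    · rw [q2, hu i] at e
      cases e
    by_cases q3 : j' = i + n - 1
    · have e2 := hu j'
      rw [show j' + 1 = i + n by omega, h.per, T.xs2, e] at e2
      cases e2
    have e3 := sep_pg h hx hx e hu (cvx_unc h hC i j') (fun r => q2 (by
        by_contra _
        exact h.ne_of (by omega : i + 1 < j') (by omega) r.symm))
      (h.ne_of (by omega) (by omega))
    rw [pc_self, (out_iff h hC h4 hx (by omega) (by omega)).1 ho] at e3
    exact absurd e3 (by decide)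

end H8C
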