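import Mathlib

/-!
# H8C, file Count: many plane perfect matchings

If every two disjoint vertex sets of the same size are joined by a plane perfect matching, then there are at least
`(2m choose m) / 2^m` plane perfect matchings of `2m` vertices: every half `A` has one which joins it to its
complement, and a perfect matching `M` joins at most `2^m` halves to their complements.
-/

set_option autoImplicit false
set_option linter.unusedSectionVars false
set_option linter.unusedVariables false

namespace H8C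

open Finset

variable {V : Type*} [Fintype V] [DecidableEq V]

/-- a perfect matching: no loops, every vertex is in exactly one edge; plane: no two edges cross -/
def PlanePM (cross : Sym2 V → Sym2 V → Prop) (M : Finset (Sym2 V)) : Prop :=
  (∀ e ∈ M, ¬ e.IsDiag) ∧ (∀ v, ∃! e, e ∈ M ∧ v ∈ e) ∧ ∀ e ∈ M, ∀ f ∈ M, ¬ cross e f

/-- `M` joins `A` to its complement -/
private def Halves (M : Finset (Sym2 V)) (A : Finset V) : Prop :=
  ∀ x y, s(x, y) ∈ M → (x ∈ A ↔ y ∉ A)

private theorem fibre {m : ℕ} (hm : Fintype.card V = 2 * m) {M : Finset (Sym2 V)} (hcard : M.card = m)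
    (hcov : ∀ v, ∃! e, e ∈ M ∧ v ∈ e) (S : Finset (Finset V)) (hS : ∀ A ∈ S, Halves M A) : S.card ≤ 2 ^ m := by
  classical
  have h1 : (Fintype.card (M → Bool)) = 2 ^ m := by
    rw [Fintype.card_fun, Fintype.card_bool, Fintype.card_coe, hcard]
  rw [← h1, ← Finset.card_univ]
  refine Finset.card_le_card_of_injOn (fun A e => decide ((Quot.out e.1).1 ∈ A)) (fun _ _ => mem_univ _) ?_
  intro A hA B hB hAB
  have hA' := hS A hA
  have hB' := hS B hB
  have key : ∀ e : Sym2 V, e ∈ M → ((Quot.out e).1 ∈ A ↔ (Quot.out e).1 ∈ B) := by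
    intro e he
    have := congrFun hAB ⟨e, he⟩
    simpa using this
  have hrep : ∀ e : Sym2 V, e = s((Quot.out e).1, (Quot.out e).2) := by
    intro e
    exact (Quot.out_eq e).symm
  ext v
  obtain ⟨e, ⟨he, hv⟩, _⟩ := hcov v
  have hk := key e he
  have hr := hrep e
  have he' : s((Quot.out e).1, (Quot.out e).2) ∈ M := hr ▸ he
  have h2 := hA' _ _ he'
  have h3 := hB' _ _ he'
  rw [hr, Sym2.mem_iff] at hv
  rcases hv with hv | hv
  · rw [hv]; exact hk
  · rw [hv]
    constructor
    · intro h
      by_contra h4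
      exact (h2.1 (hk.2 (h3.2 h4))) h
    · intro h
      by_contra h4
      exact (h3.1 (hk.1 (h2.2 h4))) h

/-- MANY PLANE PERFECT MATCHINGS -/
theorem count {cross : Sym2 V → Sym2 V → Prop} {m : ℕ} (hm : Fintype.card V = 2 * m)
    (H : ∀ A B : Finset V, Disjoint A B → A.card = B.card →
      ∃ f : A ≃ B, ∀ a a' : A, ¬ cross s(a.1, (f a).1) s(a'.1, (f a').1)) :
    (2 * m).choose m ≤ 2 ^ m * Nat.card {M : Finset (Sym2 V) // PlanePM cross M} := by
  classical
  have hex : ∀ A ∈ powersetCard m (univ : Finset V), ∃ M : Finset (Sym2 V), PlanePM cross M ∧ M.card = m ∧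
      Halves M A := by
    intro A hA
    rw [mem_powersetCard] at hA
    have hc : Aᶜ.card = m := by
      rw [card_compl, hm, hA.2]
      omega
    obtain ⟨f, hf⟩ := H A Aᶜ disjoint_compl_right (hA.2.trans hc.symm)
    have hfa : ∀ a : A, (f a).1 ∉ A := fun a => mem_compl.1 (f a).2
    have hmem : ∀ e, e ∈ (univ : Finset A).image (fun a => s(a.1, (f a).1)) ↔ ∃ a : A, s(a.1, (f a).1) = e := by
      intro e
      simp
    have hinj : Function.Injective (fun a : A => s(a.1, (f a).1)) := by
      intro a b hab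
      rcases Sym2.eq_iff.1 hab with ⟨h1, _⟩ | ⟨h1, h2⟩
      · exact Subtype.ext h1
      · exact absurd (h1 ▸ a.2) (hfa b)
    refine ⟨(univ : Finset A).image (fun a => s(a.1, (f a).1)), ⟨?_, ?_, ?_⟩, ?_, ?_⟩
    · intro e he
      obtain ⟨a, rfl⟩ := (hmem e).1 he
      rw [Sym2.mk_isDiag_iff]
      intro h1
      exact hfa a (h1 ▸ a.2)
    · intro v
      by_cases hv : v ∈ A
      · refine ⟨s(v, (f ⟨v, hv⟩).1), ⟨(hmem _).2 ⟨⟨v, hv⟩, rfl⟩, Sym2.mem_mk_left _ _⟩, ?_⟩
        rintro e ⟨he, hve⟩
        obtain ⟨a, rfl⟩ := (hmem e).1 he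
        rcases Sym2.mem_iff.1 hve with h1 | h1
        · have h2 : a = ⟨v, hv⟩ := Subtype.ext h1.symm
          rw [h2]
        · exact absurd (h1 ▸ hv) (hfa a)
      · obtain ⟨a, ha⟩ := f.surjective ⟨v, mem_compl.2 hv⟩
        have ha' : (f a).1 = v := by rw [ha]
        refine ⟨s(a.1, (f a).1), ⟨(hmem _).2 ⟨a, rfl⟩, by rw [Sym2.mem_iff]; exact Or.inr ha'.symm⟩, ?_⟩
        rintro e ⟨he, hve⟩
        obtain ⟨b, rfl⟩ := (hmem e).1 he
        rcases Sym2.mem_iff.1 hve with h1 | h1
        · exact absurd (h1 ▸ b.2) hv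
        · have h2 : f b = f a := Subtype.ext (h1.symm.trans ha'.symm)
          rw [f.injective h2]
    · intro e he g hg
      obtain ⟨a, rfl⟩ := (hmem e).1 he
      obtain ⟨b, rfl⟩ := (hmem g).1 hg
      exact hf a b
    · rw [card_image_of_injective _ hinj, Finset.card_univ, Fintype.card_coe, hA.2]
    · intro x y hxy
      obtain ⟨a, ha⟩ := (hmem _).1 hxy
      rcases Sym2.eq_iff.1 ha with ⟨h1, h2⟩ | ⟨h1, h2⟩
      · rw [← h1, ← h2]
        exact ⟨fun _ => hfa a, fun _ => a.2⟩
      · rw [← h1, ← h2]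
        exact ⟨fun h => absurd h (hfa a), fun h => absurd a.2 h⟩
  choose! g hg using hex
  have hfin : Finite {M : Finset (Sym2 V) // PlanePM cross M} := inferInstance
  set P : Finset (Finset (Sym2 V)) := univ.filter (fun M => PlanePM cross M) with hP
  have hPc : P.card = Nat.card {M : Finset (Sym2 V) // PlanePM cross M} := by
    rw [Nat.card_eq_fintype_card, Fintype.card_subtype]
  rw [← hPc]
  have h1 : (powersetCard m (univ : Finset V)).card = (2 * m).choose m := by
    rw [card_powersetCard, Finset.card_univ, hm]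
  rw [← h1]
  refine Finset.card_le_mul_card_image_of_maps_to (f := g) ?_ (2 ^ m) ?_
  · intro A hA
    rw [hP, mem_filter]
    exact ⟨mem_univ _, (hg A hA).1⟩
  · intro M hM
    rw [hP, mem_filter] at hM
    by_cases he : ((powersetCard m (univ : Finset V)).filter (fun A => g A = M)) = ∅
    · rw [he, card_empty]
      exact Nat.zero_le _
    · obtain ⟨A, hA⟩ := nonempty_iff_ne_empty.2 he
      rw [mem_filter] at hA
      have hcard : M.card = m := by rw [← hA.2]; exact (hg A hA.1).2.1
      refine fibre hm hcard hM.2.2.1 _ ?_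
      intro A' hA'
      rw [mem_filter] at hA'
      rw [← hA'.2]
      exact (hg A' hA'.1).2.2

end H8C
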